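import Pool.Agent.Lib.MP_1706f7_co.Defs

/-!
Exactly which binary words have an abelian closure of positive entropy: the proof.
A margin `η` around a slope `α` leaves a free bit in the height function wherever the rotation
by `α` visits an arc of length `η`; without a margin every word of the closure agrees with one of
its shifts outside a set of small density.
-/

open Filter Topology

namespace Pool.Agent.Lib.MP_1706f7_co

/-! ### Window weights -/

/-- integer value of a letter -/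
def val (a : Fin 2) : ℤ := if a = 1 then 1 else 0

/-- number of letters 1 in the window of length `n` at position `i` -/
def W (y : ℕ → Fin 2) (i n : ℕ) : ℤ := ∑ j ∈ Finset.range n, val (y (i + j))

lemma val_nonneg (a : Fin 2) : 0 ≤ val a := by unfold val; split_ifs <;> norm_num

lemma val_le (a : Fin 2) : val a ≤ 1 := by unfold val; split_ifs <;> norm_num

lemma val_inj {a b : Fin 2} (h : val a = val b) : a = b := by
  fin_cases a <;> fin_cases b <;> simp_all [val]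

lemma W_zero (y : ℕ → Fin 2) (i : ℕ) : W y i 0 = 0 := by simp [W]

lemma W_succ (y : ℕ → Fin 2) (i n : ℕ) : W y i (n + 1) = W y i n + val (y (i + n)) := by
  simp [W, Finset.sum_range_succ]

lemma W_add (y : ℕ → Fin 2) (i a b : ℕ) : W y i (a + b) = W y i a + W y (i + a) b := by
  simp [W, Finset.sum_range_add, add_assoc]

lemma W_shift (y : ℕ → Fin 2) (i n : ℕ) :
    W y (i + 1) n - W y i n = val (y (i + n)) - val (y i) := by
  have h1 := W_add y i 1 n
  have h2 := W_succ y i n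
  have h3 : W y i 1 = val (y i) := by simp [W]
  rw [add_comm 1 n] at h1
  linarith

lemma W_nonneg (y : ℕ → Fin 2) (i n : ℕ) : 0 ≤ W y i n :=
  Finset.sum_nonneg fun _ _ => val_nonneg _

lemma W_le (y : ℕ → Fin 2) (i n : ℕ) : W y i n ≤ n := by
  induction n with
  | zero => simp [W]
  | succ n ih => rw [W_succ]; have := val_le (y (i + n)); push_cast; linarith

lemma ones_eq {n : ℕ} (y : ℕ → Fin 2) (i : ℕ) (w : Fin n → Fin 2)
    (h : ∀ j : Fin n, w j = y (i + j)) : (ones w : ℤ) = W y i n := by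
  rw [W, ones, Finset.card_filter, ← Fin.sum_univ_eq_sum_range (fun j => val (y (i + j))) n]
  push_cast
  refine Finset.sum_congr rfl fun j _ => ?_
  rw [h j]; rfl

lemma mem_closure_iff {x y : ℕ → Fin 2} :
    y ∈ abelianClosure x ↔ ∀ n i, ∃ k, W y i n = W x k n := by
  constructor
  · intro hy n i
    obtain ⟨u, ⟨k, hk⟩, hu⟩ := hy n (fun j => y (i + j)) ⟨i, fun _ => rfl⟩
    refine ⟨k, ?_⟩
    rw [← ones_eq y i (fun j : Fin n => y (i + j)) (fun _ => rfl), hu, ones_eq x k u hk]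
  · rintro h n v ⟨i, hi⟩
    obtain ⟨k, hk⟩ := h n i
    refine ⟨fun j => x (k + j), ⟨k, fun _ => rfl⟩, ?_⟩
    have a := ones_eq y i v hi
    have b := ones_eq x k (fun j : Fin n => x (k + j)) (fun _ => rfl)
    have : (ones v : ℤ) = ones (fun j : Fin n => x (k + j)) := by rw [a, b, hk]
    exact_mod_cast this

lemma self_mem (x : ℕ → Fin 2) : x ∈ abelianClosure x :=
  mem_closure_iff.2 fun _ i => ⟨i, rfl⟩

lemma ivt_up (f : ℕ → ℤ) (hf : ∀ i, f (i + 1) ≤ f i + 1) (a d : ℕ) (k : ℤ) (h1 : f a ≤ k)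
    (h2 : k ≤ f (a + d)) : ∃ c, f c = k := by
  induction d with
  | zero => exact ⟨a, le_antisymm h1 h2⟩
  | succ d ih =>
    rcases le_or_gt k (f (a + d)) with h | h
    · exact ih h
    · have := hf (a + d)
      exact ⟨a + (d + 1), by rw [← add_assoc] at h2 ⊢; omega⟩

lemma ivt (x : ℕ → Fin 2) (n a b : ℕ) (k : ℤ) (h1 : W x a n ≤ k) (h2 : k ≤ W x b n) :
    ∃ c, W x c n = k := by
  have s1 : ∀ i, W x (i + 1) n ≤ W x i n + 1 := fun i => by
    have := W_shift x i n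
    have := val_le (x (i + n))
    have := val_nonneg (x i)
    linarith
  have s2 : ∀ i, -W x (i + 1) n ≤ -W x i n + 1 := fun i => by
    have := W_shift x i n
    have := val_nonneg (x (i + n))
    have := val_le (x i)
    linarith
  rcases le_total a b with h | h
  · obtain ⟨d, rfl⟩ := Nat.exists_eq_add_of_le h
    exact ivt_up (fun i => W x i n) s1 a d k h1 h2
  · obtain ⟨d, rfl⟩ := Nat.exists_eq_add_of_le h
    obtain ⟨c, hc⟩ := ivt_up (fun i => -W x i n) s2 b d (-k) (by simpa using h2)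
      (by simpa using h1)
    exact ⟨c, by simpa using hc⟩

/-! ### The entropy exists -/

lemma ncard_pos (x : ℕ → Fin 2) (n : ℕ) : 0 < (blocks (abelianClosure x) n).ncard :=
  (Set.ncard_pos (Set.toFinite _)).2 ⟨fun j => x (0 + j), x, self_mem x, 0, fun _ => rfl⟩

lemma ncard_add (X : Set (ℕ → Fin 2)) (m n : ℕ) :
    (blocks X (m + n)).ncard ≤ (blocks X m).ncard * (blocks X n).ncard := by
  rw [← Set.ncard_prod]
  refine Set.ncard_le_ncard_of_injOn
    (fun w => (fun j => w (Fin.castAdd n j), fun j => w (Fin.natAdd m j))) ?_ ?_ (Set.toFinite _)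
  · rintro w ⟨y, hy, i, hi⟩
    refine ⟨⟨y, hy, i, fun j => ?_⟩, ⟨y, hy, i + m, fun j => ?_⟩⟩
    · simp [hi]
    · simp [hi, add_assoc]
  · intro w _ w' _ h
    have h1 := congrArg Prod.fst h
    have h2 := congrArg Prod.snd h
    funext j
    refine Fin.addCases (fun j => ?_) (fun j => ?_) j
    · exact congrFun h1 j
    · exact congrFun h2 j

lemma exists_lim (x : ℕ → Fin 2) : ∃ h : ℝ,
    Tendsto (fun n : ℕ => Real.log ((blocks (abelianClosure x) n).ncard : ℝ) / n) atTop (𝓝 h) := by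
  have hs : Subadditive (fun n : ℕ => Real.log ((blocks (abelianClosure x) n).ncard : ℝ)) := by
    intro m n
    have a : (0 : ℝ) < (blocks (abelianClosure x) m).ncard := by exact_mod_cast ncard_pos x m
    have b : (0 : ℝ) < (blocks (abelianClosure x) n).ncard := by exact_mod_cast ncard_pos x n
    have c : (0 : ℝ) < (blocks (abelianClosure x) (m + n)).ncard := by
      exact_mod_cast ncard_pos x (m + n)
    show Real.log _ ≤ Real.log _ + Real.log _
    rw [← Real.log_mul a.ne' b.ne']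
    exact Real.log_le_log c (by exact_mod_cast ncard_add _ m n)
  refine ⟨hs.lim, hs.tendsto_lim ⟨0, ?_⟩⟩
  rintro _ ⟨n, rfl⟩
  exact div_nonneg (Real.log_natCast_nonneg _) (Nat.cast_nonneg _)

lemma lim_le {f : ℕ → ℝ} {h A κ : ℝ} (hl : Tendsto (fun n : ℕ => f n / n) atTop (𝓝 h))
    (hb : ∀ n : ℕ, f n ≤ A + n * κ) : h ≤ κ := by
  have h1 : Tendsto (fun n : ℕ => A / (n : ℝ) + κ) atTop (𝓝 (0 + κ)) :=
    (tendsto_const_div_atTop_nhds_zero_nat A).add tendsto_const_nhds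
  rw [zero_add] at h1
  refine le_of_tendsto_of_tendsto hl h1 ?_
  filter_upwards [eventually_gt_atTop 0] with n hn
  have hn' : (0 : ℝ) < n := by exact_mod_cast hn
  rw [div_le_iff₀ hn', add_mul, div_mul_cancel₀ _ hn'.ne']
  linarith [hb n]

lemma le_lim {f : ℕ → ℝ} {h κ : ℝ} (hl : Tendsto (fun n : ℕ => f n / n) atTop (𝓝 h))
    (hb : ∀ n : ℕ, n * κ ≤ f n) : κ ≤ h := by
  refine ge_of_tendsto hl ?_
  filter_upwards [eventually_gt_atTop 0] with n hn
  have hn' : (0 : ℝ) < n := by exact_mod_cast hn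
  rw [le_div_iff₀ hn']
  linarith [hb n]

/-! ### A margin gives positive entropy -/

/-- height function with free bits on `T` -/
noncomputable def Ht (α ρ : ℝ) (T : Finset ℕ) (i : ℕ) : ℤ :=
  ⌊(i : ℝ) * α + ρ⌋ + if i ∈ T then 1 else 0

/-- the word with height function `Ht` -/
noncomputable def wd (α ρ : ℝ) (T : Finset ℕ) (i : ℕ) : Fin 2 :=
  if Ht α ρ T (i + 1) - Ht α ρ T i = 1 then 1 else 0

section lower

variable {x : ℕ → Fin 2} {α η ρ : ℝ} {T : Finset ℕ}

lemma Ht_mem (hη : 0 < η)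
    (hc : ∀ n : ℕ, 1 ≤ n → (∃ a, (W x a n : ℝ) ≤ n * α - η) ∧ ∃ b, n * α + η ≤ (W x b n : ℝ))
    (hT : ∀ i ∈ T, (⌊(i : ℝ) * α + ρ⌋ : ℝ) + 1 - (i * α + ρ) ≤ η) (i n : ℕ) (hn : 1 ≤ n) :
    ∃ k, Ht α ρ T (i + n) - Ht α ρ T i = W x k n := by
  have hD : ∀ j : ℕ, (j : ℝ) * α + ρ - 1 < (Ht α ρ T j : ℝ) ∧
      (Ht α ρ T j : ℝ) ≤ j * α + ρ + η := by
    intro j
    have f1 := Int.floor_le ((j : ℝ) * α + ρ)
    have f2 := Int.lt_floor_add_one ((j : ℝ) * α + ρ)
    unfold Ht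
    split_ifs with hj
    · have := hT j hj
      push_cast
      constructor <;> linarith
    · push_cast
      constructor <;> linarith
  obtain ⟨⟨a, ha⟩, b, hb⟩ := hc n hn
  obtain ⟨d1, d2⟩ := hD i
  obtain ⟨d3, d4⟩ := hD (i + n)
  push_cast at d3 d4
  have e1 : ((W x a n - 1 : ℤ) : ℝ) < ((Ht α ρ T (i + n) - Ht α ρ T i : ℤ) : ℝ) := by
    push_cast; nlinarith
  have e2 : ((Ht α ρ T (i + n) - Ht α ρ T i : ℤ) : ℝ) < ((W x b n + 1 : ℤ) : ℝ) := by
    push_cast; nlinarith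
  have e3 : W x a n - 1 < Ht α ρ T (i + n) - Ht α ρ T i := by exact_mod_cast e1
  have e4 : Ht α ρ T (i + n) - Ht α ρ T i < W x b n + 1 := by exact_mod_cast e2
  obtain ⟨c, hc⟩ := ivt x n a b (Ht α ρ T (i + n) - Ht α ρ T i) (by omega) (by omega)
  exact ⟨c, hc.symm⟩

lemma W_wd (hη : 0 < η)
    (hc : ∀ n : ℕ, 1 ≤ n → (∃ a, (W x a n : ℝ) ≤ n * α - η) ∧ ∃ b, n * α + η ≤ (W x b n : ℝ))
    (hT : ∀ i ∈ T, (⌊(i : ℝ) * α + ρ⌋ : ℝ) + 1 - (i * α + ρ) ≤ η) (i n : ℕ) :
    W (wd α ρ T) i n = Ht α ρ T (i + n) - Ht α ρ T i := by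
  induction n with
  | zero => simp [W]
  | succ n ih =>
    rw [W_succ, ih]
    obtain ⟨k, hk⟩ := Ht_mem hη hc hT (i + n) 1 le_rfl
    have a := W_nonneg x k 1
    have b := W_le x k 1
    have : val (wd α ρ T (i + n)) = Ht α ρ T (i + n + 1) - Ht α ρ T (i + n) := by
      unfold wd val
      split_ifs with h1 h2 h2
      · omega
      · exact absurd rfl h2
      · exact absurd h2 (by decide)
      · push_cast at b; omega
    rw [this, ← add_assoc]; ring

lemma wd_mem (hη : 0 < η)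
    (hc : ∀ n : ℕ, 1 ≤ n → (∃ a, (W x a n : ℝ) ≤ n * α - η) ∧ ∃ b, n * α + η ≤ (W x b n : ℝ))
    (hT : ∀ i ∈ T, (⌊(i : ℝ) * α + ρ⌋ : ℝ) + 1 - (i * α + ρ) ≤ η) :
    wd α ρ T ∈ abelianClosure x := by
  refine mem_closure_iff.2 fun n i => ?_
  rcases Nat.eq_zero_or_pos n with rfl | hn
  · exact ⟨0, by simp [W]⟩
  · rw [W_wd hη hc hT]; exact Ht_mem hη hc hT i n hn

lemma two_pow_le (hη : 0 < η)
    (hc : ∀ n : ℕ, 1 ≤ n → (∃ a, (W x a n : ℝ) ≤ n * α - η) ∧ ∃ b, n * α + η ≤ (W x b n : ℝ))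
    {S : Finset ℕ} {N : ℕ} (hS : ∀ i ∈ S, (⌊(i : ℝ) * α + ρ⌋ : ℝ) + 1 - (i * α + ρ) ≤ η)
    (hSN : ∀ i ∈ S, 1 ≤ i ∧ i ≤ N) : 2 ^ S.card ≤ (blocks (abelianClosure x) N).ncard := by
  rw [← Finset.card_powerset, ← Set.ncard_coe_finset]
  refine Set.ncard_le_ncard_of_injOn (fun T => fun j : Fin N => wd α ρ T (0 + j)) ?_ ?_
    (Set.toFinite _)
  · intro T hT
    have hT' : T ⊆ S := Finset.mem_powerset.1 hT
    exact ⟨wd α ρ T, wd_mem hη hc fun i hi => hS i (hT' hi), 0, fun _ => rfl⟩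
  · intro T hT T' hT' h
    have h1 : T ⊆ S := Finset.mem_powerset.1 hT
    have h2 : T' ⊆ S := Finset.mem_powerset.1 hT'
    have key : ∀ i ≤ N, (i ∈ T ↔ i ∈ T') := by
      intro i hi
      have e : W (wd α ρ T) 0 i = W (wd α ρ T') 0 i := by
        refine Finset.sum_congr rfl fun j hj => ?_
        have hj' : j < N := lt_of_lt_of_le (Finset.mem_range.1 hj) hi
        exact congrArg val (congrFun h ⟨j, hj'⟩)
      rw [W_wd hη hc fun i hi => hS i (h1 hi), W_wd hη hc fun i hi => hS i (h2 hi)] at e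
      have z1 : 0 ∉ T := fun h0 => by have := (hSN 0 (h1 h0)).1; omega
      have z2 : 0 ∉ T' := fun h0 => by have := (hSN 0 (h2 h0)).1; omega
      simp only [Ht, zero_add, if_neg z1, if_neg z2] at e
      by_cases a : i ∈ T <;> by_cases b : i ∈ T' <;> simp_all
    ext i
    constructor
    · intro hi; exact (key i (hSN i (h1 hi)).2).1 hi
    · intro hi; exact (key i (hSN i (h2 hi)).2).2 hi

lemma exists_free (α : ℝ) {K : ℕ} (hK : 0 < K) (N : ℕ) : ∃ (ρ : ℝ) (S : Finset ℕ),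
    (∀ i ∈ S, (⌊(i : ℝ) * α + ρ⌋ : ℝ) + 1 - (i * α + ρ) ≤ 1 / K) ∧
      (∀ i ∈ S, 1 ≤ i ∧ i ≤ N) ∧ N ≤ K * S.card := by
  have hK' : (0 : ℝ) < K := by exact_mod_cast hK
  let g : ℕ → ℕ := fun i => ⌊(K : ℝ) * Int.fract ((i : ℝ) * α)⌋₊
  have hg : ∀ i ∈ Finset.Icc 1 N, g i ∈ Finset.range K := by
    intro i _
    rw [Finset.mem_range]
    have := Int.fract_lt_one ((i : ℝ) * α)
    have := Int.fract_nonneg ((i : ℝ) * α)
    exact (Nat.floor_lt (by positivity)).2 (by nlinarith)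
  obtain ⟨k, hk, hmax⟩ := Finset.exists_max_image (Finset.range K)
    (fun k => ((Finset.Icc 1 N).filter (fun i => g i = k)).card) ⟨0, Finset.mem_range.2 hK⟩
  refine ⟨1 - (k + 1) / K, (Finset.Icc 1 N).filter (fun i => g i = k), ?_, ?_, ?_⟩
  · intro i hi
    have hi' : g i = k := (Finset.mem_filter.1 hi).2
    have f0 := Int.fract_nonneg ((i : ℝ) * α)
    have f1 : (k : ℝ) ≤ K * Int.fract ((i : ℝ) * α) := by
      rw [← hi']; exact Nat.floor_le (by positivity)
    have f2 : (K : ℝ) * Int.fract ((i : ℝ) * α) < k + 1 := by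
      rw [← hi']; exact Nat.lt_floor_add_one _
    have f3 : Int.fract ((i : ℝ) * α) < (k + 1) / K := by rw [lt_div_iff₀ hK']; linarith
    have f4 : (k : ℝ) / K ≤ Int.fract ((i : ℝ) * α) := by rw [div_le_iff₀ hK']; linarith
    have f5 := Int.floor_add_fract ((i : ℝ) * α)
    have f6 : ((k : ℝ) + 1) / K = k / K + 1 / K := add_div _ _ _
    have f7 : ⌊(i : ℝ) * α + (1 - (k + 1) / K)⌋ ≤ ⌊(i : ℝ) * α⌋ := by
      rw [← Int.lt_add_one_iff, Int.floor_lt]; push_cast; linarith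
    have f8 : ((⌊(i : ℝ) * α + (1 - (k + 1) / K)⌋ : ℤ) : ℝ) ≤ (⌊(i : ℝ) * α⌋ : ℤ) := by
      exact_mod_cast f7
    linarith
  · intro i hi
    exact Finset.mem_Icc.1 (Finset.mem_filter.1 hi).1
  · have h1 := Finset.card_eq_sum_card_fiberwise hg
    have h2 := Finset.sum_le_card_nsmul _ _ _ hmax
    simp only [Nat.card_Icc, Finset.card_range, smul_eq_mul] at h1 h2
    omega

lemma lower (hη : 0 < η)
    (hc : ∀ n : ℕ, 1 ≤ n → (∃ a, (W x a n : ℝ) ≤ n * α - η) ∧ ∃ b, n * α + η ≤ (W x b n : ℝ)) :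
    ∃ κ : ℝ, 0 < κ ∧ ∀ N : ℕ, N * κ ≤ Real.log ((blocks (abelianClosure x) N).ncard : ℝ) := by
  obtain ⟨K, hK⟩ := exists_nat_gt (1 / η)
  have hK' : (0 : ℝ) < K := lt_trans (by positivity) hK
  have hK0 : 0 < K := by exact_mod_cast hK'
  have hKη : 1 / (K : ℝ) ≤ η := by
    rw [div_lt_iff₀ hη] at hK
    rw [div_le_iff₀ hK']; linarith
  have l2 : 0 < Real.log 2 := Real.log_pos (by norm_num)
  refine ⟨Real.log 2 / K, by positivity, fun N => ?_⟩
  obtain ⟨ρ, S, h1, h2, h3⟩ := exists_free α hK0 N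
  have h4 := two_pow_le hη hc (fun i hi => (h1 i hi).trans hKη) h2
  have h5 : ((2 : ℝ) ^ S.card) ≤ (blocks (abelianClosure x) N).ncard := by exact_mod_cast h4
  have h6 := Real.log_le_log (by positivity) h5
  rw [Real.log_pow] at h6
  have h7 : (N : ℝ) ≤ K * S.card := by exact_mod_cast h3
  have h8 : (N : ℝ) * (Real.log 2 / K) ≤ S.card * Real.log 2 := by
    rw [← mul_div_assoc, div_le_iff₀ hK']; nlinarith
  linarith

end lower

/-! ### No margin gives entropy zero -/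

lemma sum_W (y : ℕ → Fin 2) (i n N : ℕ) :
    ∑ j ∈ Finset.range N, W y (i + j) n = ∑ r ∈ Finset.range n, W y (i + r) N := by
  unfold W
  rw [Finset.sum_comm]
  refine Finset.sum_congr rfl fun r _ => Finset.sum_congr rfl fun j _ => ?_
  rw [add_right_comm]

/-- positions where the word differs from its shift by `n` -/
def bad (y : ℕ → Fin 2) (i n N : ℕ) : Finset ℕ :=
  (Finset.range N).filter (fun j => y (i + j + n) ≠ y (i + j))

lemma card_bad {y : ℕ → Fin 2} {n : ℕ} {s c : ℤ} {β C : ℝ} (hs : s = 1 ∨ s = -1)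
    (h1 : ∀ i, c ≤ s * W y i n) (h2 : ∀ i N, ((s * W y i N : ℤ) : ℝ) ≤ N * β + C) (i N : ℕ) :
    ((bad y i n N).card : ℝ) ≤ 2 * ((N + 1) * (n * β - c) + n * C) := by
  have a1 : ((bad y i n N).card : ℤ) ≤
      ∑ j ∈ Finset.range N, ((s * W y (i + j) n - c) + (s * W y (i + (j + 1)) n - c)) := by
    rw [bad, Finset.card_filter]
    push_cast
    refine Finset.sum_le_sum fun j _ => ?_
    have b1 := h1 (i + j)
    have b2 := h1 (i + (j + 1))
    split_ifs with h
    · have b3 := W_shift y (i + j) n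
      have b4 : val (y (i + j + n)) ≠ val (y (i + j)) := fun e => h (val_inj e)
      rw [← add_assoc] at b2 ⊢
      rcases hs with rfl | rfl <;> omega
    · linarith
  have a2 : ∑ j ∈ Finset.range N, ((s * W y (i + j) n - c) + (s * W y (i + (j + 1)) n - c)) ≤
      2 * ∑ j ∈ Finset.range (N + 1), (s * W y (i + j) n - c) := by
    rw [Finset.sum_add_distrib, two_mul]
    refine add_le_add ?_ ?_
    · rw [Finset.sum_range_succ]; linarith [h1 (i + N)]
    · rw [Finset.sum_range_succ']; linarith [h1 (i + 0)]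
  have a3 : ∑ j ∈ Finset.range (N + 1), (s * W y (i + j) n - c) =
      ∑ r ∈ Finset.range n, s * W y (i + r) (N + 1) - (N + 1) * c := by
    rw [Finset.sum_sub_distrib, ← Finset.mul_sum, sum_W, Finset.mul_sum]
    simp
  have a4 : ((∑ r ∈ Finset.range n, s * W y (i + r) (N + 1) : ℤ) : ℝ) ≤ n * ((N + 1) * β + C) := by
    rw [Int.cast_sum]
    have := Finset.sum_le_card_nsmul (Finset.range n)
      (fun r => ((s * W y (i + r) (N + 1) : ℤ) : ℝ)) (((N + 1 : ℕ) : ℝ) * β + C)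
      (fun r _ => h2 (i + r) (N + 1))
    simpa [mul_add] using this
  have a5 : ((bad y i n N).card : ℤ) ≤
      2 * (∑ r ∈ Finset.range n, s * W y (i + r) (N + 1) - (N + 1) * c) := by
    rw [← a3]; exact a1.trans a2
  have a6 : (((bad y i n N).card : ℤ) : ℝ) ≤
      ((2 * (∑ r ∈ Finset.range n, s * W y (i + r) (N + 1) - (N + 1) * c) : ℤ) : ℝ) := by
    exact_mod_cast a5
  rw [Int.cast_mul, Int.cast_sub] at a6
  push_cast at a4 a6 ⊢
  nlinarith

lemma count_small (N : ℕ) {B t : ℝ} (ht : 0 < t) (ht1 : t ≤ 1) :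
    (((Finset.range N).powerset.filter (fun T => (T.card : ℝ) ≤ B)).card : ℝ) * t ^ B ≤
      (1 + t) ^ N := by
  have h1 : (1 + t) ^ N = ∑ T ∈ (Finset.range N).powerset, t ^ T.card := by
    have := Finset.prod_one_add (s := Finset.range N) (f := fun _ => t)
    simpa using this
  rw [h1]
  refine le_trans ?_ (Finset.sum_le_sum_of_subset_of_nonneg
    (Finset.filter_subset (fun T : Finset ℕ => (T.card : ℝ) ≤ B) _) (fun _ _ _ => by positivity))
  rw [← nsmul_eq_mul]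
  refine Finset.card_nsmul_le_sum _ _ _ fun T hT => ?_
  rw [← Real.rpow_natCast]
  exact Real.rpow_le_rpow_of_exponent_ge ht ht1 (Finset.mem_filter.1 hT).2

lemma ncard_le_of_bad (X : Set (ℕ → Fin 2)) {n N : ℕ} (hn : 1 ≤ n) {B : ℝ}
    (h : ∀ y ∈ X, ∀ i, ((bad y i n N).card : ℝ) ≤ B) :
    (blocks X N).ncard ≤
      2 ^ n * ((Finset.range N).powerset.filter (fun T => (T.card : ℝ) ≤ B)).card := by
  classical
  have hw : ∀ w : blocks X N, ∃ p : (ℕ → Fin 2) × ℕ, p.1 ∈ X ∧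
      ∀ j : Fin N, w.1 j = p.1 (p.2 + j) := by
    rintro ⟨w, y, hy, i, hi⟩
    exact ⟨(y, i), hy, hi⟩
  choose p hp1 hp2 using hw
  let F : Finset ((Fin n → Fin 2) × Finset ℕ) :=
    Finset.univ ×ˢ ((Finset.range N).powerset.filter (fun T => (T.card : ℝ) ≤ B))
  have hF : F.card =
      2 ^ n * ((Finset.range N).powerset.filter (fun T => (T.card : ℝ) ≤ B)).card := by
    simp [F]
  let code : blocks X N → F := fun w =>
    ⟨(fun r => (p w).1 ((p w).2 + r), bad (p w).1 (p w).2 n N), by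
      simp only [F, Finset.mem_product, Finset.mem_univ, true_and, Finset.mem_filter,
        Finset.mem_powerset]
      exact ⟨Finset.filter_subset _ _, h _ (hp1 w) _⟩⟩
  have hinj : Function.Injective code := by
    intro w w' e
    have e0 := congrArg Subtype.val e
    have e1 : ∀ r : Fin n, (p w).1 ((p w).2 + r) = (p w').1 ((p w').2 + r) :=
      fun r => congrFun (congrArg Prod.fst e0) r
    have e2 : bad (p w).1 (p w).2 n N = bad (p w').1 (p w').2 n N := congrArg Prod.snd e0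
    have key : ∀ j, j < N → (p w).1 ((p w).2 + j) = (p w').1 ((p w').2 + j) := by
      intro j
      induction j using Nat.strong_induction_on with
      | _ j ih =>
        intro hj
        rcases lt_or_ge j n with hlt | hge
        · exact e1 ⟨j, hlt⟩
        · obtain ⟨d, rfl⟩ := Nat.exists_eq_add_of_le' hge
          have i1 := ih d (by omega) (by omega)
          have i2 : d ∈ bad (p w).1 (p w).2 n N ↔ d ∈ bad (p w').1 (p w').2 n N := by rw [e2]
          have hd : d < N := by omega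
          simp only [bad, Finset.mem_filter, Finset.mem_range, hd, true_and, i1] at i2
          rw [← add_assoc, ← add_assoc]
          revert i2
          generalize (p w).1 ((p w).2 + d + n) = a
          generalize (p w').1 ((p w').2 + d + n) = b
          generalize (p w').1 ((p w').2 + d) = c
          revert a b c
          decide
    apply Subtype.ext
    funext j
    rw [hp2 w j, hp2 w' j]
    exact key j j.2
  have := Nat.card_le_card_of_injective code hinj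
  rw [Nat.card_coe_set_eq, Nat.card_eq_finsetCard, hF] at this
  exact this

lemma log_le_of_bad (x : ℕ → Fin 2) {n N : ℕ} (hn : 1 ≤ n) {B t : ℝ} (ht : 0 < t) (ht1 : t ≤ 1)
    (h : ∀ y ∈ abelianClosure x, ∀ i, ((bad y i n N).card : ℝ) ≤ B) :
    Real.log ((blocks (abelianClosure x) N).ncard : ℝ) ≤
      n * Real.log 2 + N * t + B * (-Real.log t) := by
  have a : (0 : ℝ) < (blocks (abelianClosure x) N).ncard := by exact_mod_cast ncard_pos x N
  have b : ((blocks (abelianClosure x) N).ncard : ℝ) ≤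
      2 ^ n * ((Finset.range N).powerset.filter (fun T => (T.card : ℝ) ≤ B)).card := by
    exact_mod_cast ncard_le_of_bad _ hn h
  have c := count_small N (B := B) ht ht1
  have tB : 0 < t ^ B := Real.rpow_pos_of_pos ht B
  have d : ((blocks (abelianClosure x) N).ncard : ℝ) * t ^ B ≤ 2 ^ n * (1 + t) ^ N := by
    refine (mul_le_mul_of_nonneg_right b tB.le).trans ?_
    rw [mul_assoc]
    exact mul_le_mul_of_nonneg_left c (by positivity)
  have e := Real.log_le_log (by positivity) d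
  rw [Real.log_mul a.ne' tB.ne', Real.log_mul (by positivity) (by positivity), Real.log_pow,
    Real.log_pow, Real.log_rpow ht] at e
  have f : Real.log (1 + t) ≤ t := by
    have := Real.log_le_sub_one_of_pos (show 0 < 1 + t by linarith)
    linarith
  have g : (N : ℝ) * Real.log (1 + t) ≤ N * t := mul_le_mul_of_nonneg_left f (Nat.cast_nonneg _)
  linarith

/-- a bound on the windows of one length bounds all windows -/
lemma W_bound {y : ℕ → Fin 2} {s : ℤ} (hs : s = 1 ∨ s = -1) {k : ℕ} (hk : 1 ≤ k) {β : ℝ}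
    (h : ∀ i, ((s * W y i k : ℤ) : ℝ) ≤ k * β) (N : ℕ) :
    ∀ i, ((s * W y i N : ℤ) : ℝ) ≤ N * β + k * (1 + |β|) := by
  induction N using Nat.strong_induction_on with
  | _ N ih =>
    intro i
    rcases lt_or_ge N k with hlt | hge
    · have a := W_nonneg y i N
      have b := W_le y i N
      have c : s * W y i N ≤ k := by rcases hs with rfl | rfl <;> omega
      have c' : ((s * W y i N : ℤ) : ℝ) ≤ k := by exact_mod_cast c
      have d : (N : ℝ) ≤ k := by exact_mod_cast hlt.le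
      have e := neg_abs_le β
      have f := abs_nonneg β
      have g : (0 : ℝ) ≤ N := Nat.cast_nonneg _
      nlinarith
    · obtain ⟨d, rfl⟩ := Nat.exists_eq_add_of_le hge
      have a := ih d (by omega) (i + k)
      have b := h i
      rw [W_add]
      push_cast at a b ⊢
      linarith

lemma W_mul_le {y : ℕ → Fin 2} {k : ℕ} {β : ℝ} (h : ∀ i, (W y i k : ℝ) ≤ β) (q i : ℕ) :
    (W y i (q * k) : ℝ) ≤ q * β := by
  induction q with
  | zero => simp [W]
  | succ q ih =>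
    rw [Nat.succ_mul, W_add]
    have := h (i + q * k)
    push_cast
    linarith

lemma le_W_mul {y : ℕ → Fin 2} {k : ℕ} {β : ℝ} (h : ∀ i, β ≤ (W y i k : ℝ)) (q i : ℕ) :
    q * β ≤ (W y i (q * k) : ℝ) := by
  induction q with
  | zero => simp [W]
  | succ q ih =>
    rw [Nat.succ_mul, W_add]
    have := h (i + q * k)
    push_cast
    linarith

/-- the lower and the upper slope -/
lemma slopes (x : ℕ → Fin 2) : ∃ a b : ℝ, a ≤ b ∧
    (∀ n : ℕ, 1 ≤ n → ∀ γ : ℝ, (∀ i, n * γ ≤ (W x i n : ℝ)) → γ ≤ a) ∧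
    (∀ n : ℕ, 1 ≤ n → ∀ γ : ℝ, (∀ i, (W x i n : ℝ) ≤ n * γ) → b ≤ γ) ∧
    (∀ ε : ℝ, 0 < ε → ∃ k : ℕ, 1 ≤ k ∧ ∀ i, k * (a - ε) ≤ (W x i k : ℝ)) ∧
    (∀ ε : ℝ, 0 < ε → ∃ k : ℕ, 1 ≤ k ∧ ∀ i, (W x i k : ℝ) ≤ k * (b + ε)) := by
  let A : Set ℝ := {γ | ∃ n : ℕ, 1 ≤ n ∧ ∀ i, n * γ ≤ (W x i n : ℝ)}
  let B : Set ℝ := {γ | ∃ n : ℕ, 1 ≤ n ∧ ∀ i, (W x i n : ℝ) ≤ n * γ}
  have hA : A.Nonempty := ⟨0, 1, le_rfl, fun i => by
    have : (0 : ℝ) ≤ W x i 1 := by exact_mod_cast W_nonneg x i 1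
    simpa using this⟩
  have hB : B.Nonempty := ⟨1, 1, le_rfl, fun i => by
    have : (W x i 1 : ℝ) ≤ ((1 : ℕ) : ℤ) := by exact_mod_cast W_le x i 1
    simpa using this⟩
  have hAB : ∀ γ ∈ A, ∀ δ ∈ B, γ ≤ δ := by
    rintro γ ⟨n, hn, h1⟩ δ ⟨k, hk, h2⟩
    have a := le_W_mul h1 k 0
    have b := W_mul_le h2 n 0
    rw [mul_comm k n] at a
    have c : (0 : ℝ) < n * k := by positivity
    have d : (n : ℝ) * k * γ ≤ n * k * δ := by nlinarith
    exact le_of_mul_le_mul_left d c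
  have bA : BddAbove A := by
    obtain ⟨δ, hδ⟩ := hB
    exact ⟨δ, fun γ hγ => hAB γ hγ δ hδ⟩
  have bB : BddBelow B := by
    obtain ⟨γ, hγ⟩ := hA
    exact ⟨γ, fun δ hδ => hAB γ hγ δ hδ⟩
  refine ⟨sSup A, sInf B, ?_, ?_, ?_, ?_, ?_⟩
  · exact csSup_le hA fun γ hγ => le_csInf hB fun δ hδ => hAB γ hγ δ hδ
  · exact fun n hn γ h => le_csSup bA ⟨n, hn, h⟩
  · exact fun n hn γ h => csInf_le bB ⟨n, hn, h⟩
  · intro ε hε
    obtain ⟨γ, ⟨k, hk, h⟩, hγ⟩ := exists_lt_of_lt_csSup hA (show sSup A - ε < sSup A by linarith)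
    exact ⟨k, hk, fun i => (mul_le_mul_of_nonneg_left hγ.le (Nat.cast_nonneg _)).trans (h i)⟩
  · intro ε hε
    obtain ⟨γ, ⟨k, hk, h⟩, hγ⟩ := exists_lt_of_csInf_lt hB (show sInf B < sInf B + ε by linarith)
    exact ⟨k, hk, fun i => (h i).trans (mul_le_mul_of_nonneg_left hγ.le (Nat.cast_nonneg _))⟩

lemma exists_min (f : ℕ → ℤ) {r : ℝ} (h : ∀ i, r < (f i : ℝ)) :
    ∃ c : ℤ, r < c ∧ ∀ i, c ≤ f i :=
  ⟨⌊r⌋ + 1, by push_cast; exact Int.lt_floor_add_one r, fun i => by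
    have := Int.floor_lt.2 (h i); omega⟩

/-- without a margin, the closure is almost periodic -/
lemma sparse {x : ℕ → Fin 2}
    (hc : ¬ ∃ α η : ℝ, 0 < η ∧ ∀ n : ℕ, 1 ≤ n →
      (∃ a, (W x a n : ℝ) ≤ n * α - η) ∧ ∃ b, n * α + η ≤ (W x b n : ℝ))
    {η : ℝ} (hη : 0 < η) : ∃ (n : ℕ) (C : ℝ), 1 ≤ n ∧ ∀ N : ℕ, ∀ y ∈ abelianClosure x, ∀ i,
      ((bad y i n N).card : ℝ) ≤ C + N * (6 * η) := by
  obtain ⟨a, b, hab, ha, hb, ha', hb'⟩ := slopes x
  have h0 : ∃ n : ℕ, 1 ≤ n ∧ ((∀ i, n * ((a + b) / 2) - η < (W x i n : ℝ)) ∨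
      ∀ i, (W x i n : ℝ) < n * ((a + b) / 2) + η) := by
    by_contra hcon
    push Not at hcon
    exact hc ⟨(a + b) / 2, η, hη, hcon⟩
  obtain ⟨n, hn, h1⟩ := h0
  have hn' : (0 : ℝ) < n := by exact_mod_cast hn
  have hε : 0 < η / n := by positivity
  have hnε : (n : ℝ) * (η / n) = η := by field_simp
  have fin : ∀ (s c : ℤ) (k : ℕ) (β : ℝ), (s = 1 ∨ s = -1) → 1 ≤ k → (∀ i, c ≤ s * W x i n) →
      (∀ i, ((s * W x i k : ℤ) : ℝ) ≤ k * β) → n * β - c ≤ 3 * η →
      ∃ (n : ℕ) (C : ℝ), 1 ≤ n ∧ ∀ N : ℕ, ∀ y ∈ abelianClosure x, ∀ i,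
        ((bad y i n N).card : ℝ) ≤ C + N * (6 * η) := by
    intro s c k β hs hk g1 g2 g3
    refine ⟨n, 6 * η + 2 * (n * (k * (1 + |β|))), hn, fun N y hy i => ?_⟩
    have hy' := mem_closure_iff.1 hy
    have := card_bad (y := y) (n := n) (c := c) (β := β) (C := k * (1 + |β|)) hs
      (fun i => by obtain ⟨j, hj⟩ := hy' n i; rw [hj]; exact g1 j)
      (fun i N => W_bound hs hk (fun i => by obtain ⟨j, hj⟩ := hy' k i; rw [hj]; exact g2 j) N i)
      i N
    have g4 : ((N : ℝ) + 1) * (n * β - c) ≤ (N + 1) * (3 * η) :=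
      mul_le_mul_of_nonneg_left g3 (by positivity)
    linarith
  rcases h1 with h1 | h1
  · obtain ⟨c, c1, c2⟩ := exists_min (fun i => W x i n) h1
    obtain ⟨k, hk, g⟩ := hb' _ hε
    have g0 : (a + b) / 2 - η / n ≤ a := ha n hn _ fun i => by
      have := h1 i
      rw [mul_sub, hnε]; linarith
    have g1 : (n : ℝ) * ((a + b) / 2 - η / n) ≤ n * a := mul_le_mul_of_nonneg_left g0 hn'.le
    refine fin 1 c k (b + η / n) (Or.inl rfl) hk (fun i => by simpa using c2 i)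
      (fun i => by simpa using g i) ?_
    rw [mul_sub, hnε] at g1
    rw [mul_add, hnε]
    linarith
  · obtain ⟨c, c1, c2⟩ := exists_min (fun i => -W x i n) (r := -(n * ((a + b) / 2) + η))
      (fun i => by have := h1 i; push_cast; linarith)
    obtain ⟨k, hk, g⟩ := ha' _ hε
    have g0 : b ≤ (a + b) / 2 + η / n := hb n hn _ fun i => by
      have := h1 i
      rw [mul_add, hnε]; linarith
    have g1 : (n : ℝ) * b ≤ n * ((a + b) / 2 + η / n) := mul_le_mul_of_nonneg_left g0 hn'.le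
    refine fin (-1) c k (-(a - η / n)) (Or.inr rfl) hk (fun i => by simpa using c2 i)
      (fun i => by have := g i; push_cast; linarith) ?_
    rw [mul_add, hnε] at g1
    rw [mul_neg, mul_sub, hnε]
    linarith

lemma upper {x : ℕ → Fin 2} {h : ℝ}
    (hl : Tendsto (fun n : ℕ => Real.log ((blocks (abelianClosure x) n).ncard : ℝ) / n) atTop
      (𝓝 h))
    (hc : ¬ ∃ α η : ℝ, 0 < η ∧ ∀ n : ℕ, 1 ≤ n →
      (∃ a, (W x a n : ℝ) ≤ n * α - η) ∧ ∃ b, n * α + η ≤ (W x b n : ℝ)) : h ≤ 0 := by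
  by_contra hpos
  rw [not_le] at hpos
  set t := min (h / 3) (1 / 2) with ht
  have t0 : 0 < t := lt_min (by linarith) (by norm_num)
  have t1 : t ≤ 1 / 2 := min_le_right _ _
  have t2 : t ≤ h / 3 := min_le_left _ _
  have l0 : 0 < -Real.log t := by
    have := Real.log_neg t0 (by linarith)
    linarith
  have hη : 0 < t / (6 * -Real.log t) := by positivity
  obtain ⟨n, C, hn, hb⟩ := sparse hc hη
  have := lim_le (A := n * Real.log 2 + C * -Real.log t) (κ := 2 * t) hl fun N => by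
    have a := log_le_of_bad x hn t0 (by linarith) (hb N)
    have b : 6 * (t / (6 * -Real.log t)) * -Real.log t = t := by
      generalize -Real.log t = L at l0
      field_simp
    have c : (C + N * (6 * (t / (6 * -Real.log t)))) * -Real.log t =
        C * -Real.log t + N * t := by rw [add_mul, mul_assoc, b]
    linarith
  linarith

theorem criterion (x : ℕ → Fin 2) : ∃ h : ℝ,
    Tendsto (fun n : ℕ => Real.log ((blocks (abelianClosure x) n).ncard : ℝ) / n) atTop (𝓝 h) ∧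
      (0 < h ↔ ∃ α η : ℝ, 0 < η ∧ ∀ n : ℕ, 1 ≤ n →
        (∃ u ∈ factors x n, (ones u : ℝ) ≤ n * α - η) ∧
          ∃ v ∈ factors x n, n * α + η ≤ (ones v : ℝ)) := by
  obtain ⟨h, hl⟩ := exists_lim x
  have cast : ∀ (n i : ℕ) (w : Fin n → Fin 2), (∀ j : Fin n, w j = x (i + j)) →
      (ones w : ℝ) = (W x i n : ℝ) := fun n i w hw => by
    rw [← ones_eq x i w hw]; simp
  refine ⟨h, hl, fun hpos => ?_, ?_⟩
  · by_contra hc
    refine absurd (upper hl ?_) (not_le.2 hpos)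
    rintro ⟨α, η, hη, hm⟩
    refine hc ⟨α, η, hη, fun n hn => ?_⟩
    obtain ⟨⟨a, ha⟩, b, hb⟩ := hm n hn
    refine ⟨⟨fun j => x (a + j), ⟨a, fun _ => rfl⟩, ?_⟩, fun j => x (b + j), ⟨b, fun _ => rfl⟩, ?_⟩
    · rw [cast n a _ fun _ => rfl]; exact ha
    · rw [cast n b _ fun _ => rfl]; exact hb
  · rintro ⟨α, η, hη, hm⟩
    obtain ⟨κ, hκ, hb⟩ := lower (x := x) (α := α) hη fun n hn => by
      obtain ⟨⟨u, ⟨a, ha⟩, hu⟩, v, ⟨b, hb⟩, hv⟩ := hm n hn
      exact ⟨⟨a, by rwa [← cast n a u ha]⟩, b, by rwa [← cast n b v hb]⟩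
    exact lt_of_lt_of_le hκ (le_lim hl hb)

end Pool.Agent.Lib.MP_1706f7_co
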