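import Mathlib

/-!
Definitions for abelian closures of binary words (the same text as in the hand-in ZeroEntropy).
-/

open Filter Topology

namespace Pool.Agent.Lib.MP_1706f7_co.Crit

/-- The set of factors of length `n` of the one-sided infinite binary word `x`. -/
def factors (x : ℕ → Fin 2) (n : ℕ) : Set (Fin n → Fin 2) :=
  {w | ∃ i : ℕ, ∀ j : Fin n, w j = x (i + j)}

/-- The number of letters 1 in a finite binary word. -/
def ones {n : ℕ} (w : Fin n → Fin 2) : ℕ :=
  (Finset.univ.filter (fun j => w j = 1)).card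

/-- Every factor occurs in every window of some bounded size. -/
def UniformlyRecurrent (x : ℕ → Fin 2) : Prop :=
  ∀ n : ℕ, ∀ w ∈ factors x n, ∃ B : ℕ, ∀ i : ℕ, ∃ k : ℕ, i ≤ k ∧ k ≤ i + B ∧
    ∀ j : Fin n, w j = x (k + j)

/-- Not eventually periodic. -/
def Aperiodic (x : ℕ → Fin 2) : Prop :=
  ¬ ∃ p N : ℕ, 0 < p ∧ ∀ n : ℕ, N ≤ n → x (n + p) = x n

/-- Aperiodic with exactly `n + 1` factors of each length `n`. -/
def Sturmian (x : ℕ → Fin 2) : Prop :=
  Aperiodic x ∧ ∀ n : ℕ, (factors x n).ncard = n + 1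

/-- The words all of whose factors are abelian equivalent to a factor of `x`. -/
def abelianClosure (x : ℕ → Fin 2) : Set (ℕ → Fin 2) :=
  {y | ∀ n : ℕ, ∀ v ∈ factors y n, ∃ u ∈ factors x n, ones v = ones u}

/-- The blocks of length `n` occurring in some element of `X`. -/
def blocks (X : Set (ℕ → Fin 2)) (n : ℕ) : Set (Fin n → Fin 2) :=
  {w | ∃ y ∈ X, w ∈ factors y n}

/-- The proportion of letters 1 in the first `n` letters tends to `a`. -/
def HasFrequency (x : ℕ → Fin 2) (a : ℝ) : Prop :=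
  Tendsto (fun n : ℕ => (ones (fun j : Fin n => x j) : ℝ) / n) atTop (𝓝 a)

end Pool.Agent.Lib.MP_1706f7_co.Crit
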