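import Mathlib
import Pool.Agent.Lib.MP_1706f7_co.WordDefs

/-!
Entropy of abelian closures: counting lemmas, the limit, and the lower bound.
-/

open Filter Topology

namespace Pool.Agent.Lib.MP_1706f7_co.Crit

/-- integer value of a letter -/
def val (a : Fin 2) : ℤ := if a = 1 then 1 else 0

/-- prefix sums of an arbitrary word -/
def pre (y : ℕ → Fin 2) (n : ℕ) : ℤ := ∑ j ∈ Finset.range n, val (y j)

lemma pre_succ (y : ℕ → Fin 2) (n : ℕ) : pre y (n + 1) = pre y n + val (y n) := by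
  simp [pre, Finset.sum_range_succ]

lemma pre_add (y : ℕ → Fin 2) (i n : ℕ) :
    pre y (i + n) - pre y i = ∑ j ∈ Finset.range n, val (y (i + j)) := by
  simp [pre, Finset.sum_range_add]

lemma ones_eq {n : ℕ} (y : ℕ → Fin 2) (i : ℕ) (w : Fin n → Fin 2)
    (h : ∀ j : Fin n, w j = y (i + j)) : (ones w : ℤ) = pre y (i + n) - pre y i := by
  rw [pre_add, ones, Finset.card_filter, ← Fin.sum_univ_eq_sum_range (fun j => val (y (i + j))) n]
  push_cast
  refine Finset.sum_congr rfl fun j _ => ?_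
  rw [h j]; rfl

lemma val_inj (a : Fin 2) : (if val a = 1 then (1 : Fin 2) else 0) = a := by
  fin_cases a <;> simp [val]

/-- number of letters 1 in the factor of length `n` at position `i` -/
def cnt (y : ℕ → Fin 2) (i n : ℕ) : ℤ := pre y (i + n) - pre y i

lemma val_mem (a : Fin 2) : val a = 0 ∨ val a = 1 := by
  unfold val; split_ifs <;> simp

lemma val_injective {a b : Fin 2} (h : val a = val b) : a = b := by
  rw [← val_inj a, ← val_inj b, h]

lemma cnt_bounds (y : ℕ → Fin 2) (i n : ℕ) : 0 ≤ cnt y i n ∧ cnt y i n ≤ n := by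
  induction n with
  | zero => simp [cnt]
  | succ n ih =>
    unfold cnt at ih ⊢
    rw [← add_assoc, pre_succ]
    rcases val_mem (y (i + n)) with h | h <;> rw [h] <;> push_cast <;> omega

lemma cnt_step (y : ℕ → Fin 2) (i n : ℕ) :
    cnt y (i + 1) n - cnt y i n = val (y (i + n)) - val (y i) := by
  unfold cnt
  have : i + 1 + n = i + n + 1 := by ring
  rw [this, pre_succ, pre_succ]; ring

lemma cnt_add (y : ℕ → Fin 2) (i a b : ℕ) : cnt y i (a + b) = cnt y i a + cnt y (i + a) b := by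
  unfold cnt; rw [add_assoc]; ring

lemma mem_closure_iff (x y : ℕ → Fin 2) :
    y ∈ abelianClosure x ↔ ∀ i n, ∃ k, cnt y i n = cnt x k n := by
  constructor
  · intro h i n
    obtain ⟨u, ⟨k, hk⟩, hu⟩ := h n (fun j => y (i + j)) ⟨i, fun _ => rfl⟩
    refine ⟨k, ?_⟩
    unfold cnt
    rw [← ones_eq y i (fun j : Fin n => y (i + j)) (fun _ => rfl), ← ones_eq x k u hk, hu]
  · rintro h n v ⟨i, hi⟩
    obtain ⟨k, hk⟩ := h i n
    refine ⟨fun j => x (k + j), ⟨k, fun _ => rfl⟩, ?_⟩
    have h1 := ones_eq y i v hi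
    have h2 := ones_eq x k (fun j : Fin n => x (k + j)) (fun _ => rfl)
    unfold cnt at hk
    exact_mod_cast h1.trans (hk.trans h2.symm)

lemma self_mem (x : ℕ → Fin 2) : x ∈ abelianClosure x :=
  (mem_closure_iff x x).2 fun i _ => ⟨i, rfl⟩

lemma ivt_up (f : ℕ → ℤ) (hf : ∀ k, f (k + 1) ≤ f k + 1) (t : ℤ) (a : ℕ) (ha : f a ≤ t) :
    ∀ d, t ≤ f (a + d) → ∃ k, f k = t := by
  intro d
  induction d with
  | zero => intro h; exact ⟨a, le_antisymm ha h⟩
  | succ d ih =>
    intro h
    by_cases h' : t ≤ f (a + d)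
    · exact ih h'
    · have := hf (a + d)
      refine ⟨a + d + 1, ?_⟩
      rw [← add_assoc] at h
      omega

lemma ivt (x : ℕ → Fin 2) (n a b : ℕ) (t : ℤ) (ha : cnt x a n ≤ t) (hb : t ≤ cnt x b n) :
    ∃ k, t = cnt x k n := by
  have hs : ∀ k, cnt x (k + 1) n ≤ cnt x k n + 1 ∧ cnt x k n ≤ cnt x (k + 1) n + 1 := by
    intro k
    have := cnt_step x k n
    rcases val_mem (x (k + n)) with h | h <;> rcases val_mem (x k) with h' | h' <;> omega
  rcases le_total a b with h | h
  · obtain ⟨d, rfl⟩ := Nat.exists_eq_add_of_le h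
    obtain ⟨k, hk⟩ := ivt_up (fun k => cnt x k n) (fun k => (hs k).1) t a ha d hb
    exact ⟨k, hk.symm⟩
  · obtain ⟨d, rfl⟩ := Nat.exists_eq_add_of_le h
    obtain ⟨k, hk⟩ := ivt_up (fun k => - cnt x k n) (fun k => by have := (hs k).2; omega) (-t) b
      (by omega) d (by omega)
    exact ⟨k, by omega⟩

/-! ### The limit exists -/

lemma blocks_pos (x : ℕ → Fin 2) (n : ℕ) : 0 < (blocks (abelianClosure x) n).ncard := by
  rw [Set.ncard_pos (Set.toFinite _)]
  exact ⟨fun j => x (0 + j), x, self_mem x, 0, fun _ => rfl⟩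

lemma blocks_mul (X : Set (ℕ → Fin 2)) (a b : ℕ) :
    (blocks X (a + b)).ncard ≤ (blocks X a).ncard * (blocks X b).ncard := by
  rw [← Set.ncard_prod]
  refine Set.ncard_le_ncard_of_injOn
    (fun w => (fun j => w (Fin.castAdd b j), fun j => w (Fin.natAdd a j))) ?_ ?_ (Set.toFinite _)
  · rintro w ⟨y, hy, i, hi⟩
    refine ⟨⟨y, hy, i, fun j => ?_⟩, ⟨y, hy, i + a, fun j => ?_⟩⟩
    · simpa using hi (Fin.castAdd b j)
    · simpa [add_assoc] using hi (Fin.natAdd a j)
  · intro w _ w' _ h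
    have h1 := congrArg Prod.fst h
    have h2 := congrArg Prod.snd h
    funext j
    refine Fin.addCases (fun i => ?_) (fun i => ?_) j
    · exact congrFun h1 i
    · exact congrFun h2 i

lemma exists_limit (x : ℕ → Fin 2) : ∃ h : ℝ,
    Tendsto (fun n : ℕ => Real.log ((blocks (abelianClosure x) n).ncard) / n) atTop (𝓝 h) := by
  have hs : Subadditive (fun n : ℕ => Real.log ((blocks (abelianClosure x) n).ncard)) := by
    intro a b
    have ha : (0 : ℝ) < (blocks (abelianClosure x) a).ncard := by exact_mod_cast blocks_pos x a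
    have hb : (0 : ℝ) < (blocks (abelianClosure x) b).ncard := by exact_mod_cast blocks_pos x b
    have hab : (0 : ℝ) < (blocks (abelianClosure x) (a + b)).ncard := by
      exact_mod_cast blocks_pos x (a + b)
    show Real.log _ ≤ Real.log _ + Real.log _
    rw [← Real.log_mul ha.ne' hb.ne']
    exact Real.log_le_log hab (by exact_mod_cast blocks_mul _ a b)
  refine ⟨hs.lim, hs.tendsto_lim ⟨0, ?_⟩⟩
  rintro _ ⟨n, rfl⟩
  exact div_nonneg (Real.log_natCast_nonneg _) (Nat.cast_nonneg _)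

/-! ### The lower bound -/

/-- the word with height function `H` -/
def ofHeight (H : ℕ → ℤ) (i : ℕ) : Fin 2 := if H (i + 1) - H i = 1 then 1 else 0

lemma pre_ofHeight (H : ℕ → ℤ) (h : ∀ i, 0 ≤ H (i + 1) - H i ∧ H (i + 1) - H i ≤ 1) (n : ℕ) :
    pre (ofHeight H) n = H n - H 0 := by
  induction n with
  | zero => simp [pre]
  | succ n ih =>
    rw [pre_succ, ih]
    have := h n
    unfold val ofHeight
    by_cases h1 : H (n + 1) - H n = 1
    · simp [h1]; omega
    · simp [h1]; omega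

lemma window_mem (x : ℕ → Fin 2) (a e : ℝ)
    (hc : ∀ n : ℕ, 1 ≤ n → (∃ k, (cnt x k n : ℝ) + e ≤ n * a) ∧ ∃ k, n * a + e ≤ (cnt x k n : ℝ))
    (H : ℕ → ℤ) (c : ℝ) (hH : ∀ i : ℕ, c - 1 - e < H i - i * a ∧ H i - i * a ≤ c) :
    ofHeight H ∈ abelianClosure x ∧ ∀ n, pre (ofHeight H) n = H n - H 0 := by
  have key : ∀ i n : ℕ, 1 ≤ n → ∃ k, H (i + n) - H i = cnt x k n := by
    intro i n hn
    obtain ⟨⟨k1, h1⟩, ⟨k2, h2⟩⟩ := hc n hn
    have a1 := hH i
    have a2 := hH (i + n)
    push_cast at a2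
    have b1 : ((cnt x k1 n - 1 : ℤ) : ℝ) < ((H (i + n) - H i : ℤ) : ℝ) := by
      push_cast; nlinarith
    have b2 : ((H (i + n) - H i : ℤ) : ℝ) < ((cnt x k2 n + 1 : ℤ) : ℝ) := by
      push_cast; nlinarith
    have c1 : cnt x k1 n - 1 < H (i + n) - H i := by exact_mod_cast b1
    have c2 : H (i + n) - H i < cnt x k2 n + 1 := by exact_mod_cast b2
    exact ivt x n k1 k2 _ (by omega) (by omega)
  have hp : ∀ n, pre (ofHeight H) n = H n - H 0 := by
    refine pre_ofHeight H fun i => ?_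
    obtain ⟨k, hk⟩ := key i 1 le_rfl
    have := cnt_bounds x k 1
    rw [hk]; exact_mod_cast this
  refine ⟨(mem_closure_iff _ _).2 fun i n => ?_, hp⟩
  rcases Nat.eq_zero_or_pos n with rfl | hn
  · exact ⟨0, by simp [cnt]⟩
  · obtain ⟨k, hk⟩ := key i n hn
    refine ⟨k, ?_⟩
    rw [← hk]; unfold cnt; rw [hp, hp]; ring

lemma pre_congr {y z : ℕ → Fin 2} {N : ℕ} (h : ∀ j, j < N → y j = z j) (n : ℕ) (hn : n ≤ N) :
    pre y n = pre z n := by
  unfold pre
  refine Finset.sum_congr rfl fun j hj => ?_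
  rw [h j (lt_of_lt_of_le (Finset.mem_range.1 hj) hn)]

lemma lower (x : ℕ → Fin 2) (a e : ℝ) (K : ℕ) (hK : 0 < K) (hKe : 1 / (K : ℝ) ≤ e)
    (hc : ∀ n : ℕ, 1 ≤ n → (∃ k, (cnt x k n : ℝ) + e ≤ n * a) ∧ ∃ k, n * a + e ≤ (cnt x k n : ℝ))
    (N : ℕ) : 2 ^ (N / K) ≤ (blocks (abelianClosure x) N).ncard := by
  classical
  have hK' : (0 : ℝ) < K := by exact_mod_cast hK
  have he : 0 < e := lt_of_lt_of_le (by positivity) hKe
  obtain ⟨k, -, hk⟩ := Finset.exists_le_card_fiber_of_mul_le_card_of_maps_to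
    (s := Finset.Icc 1 N) (t := Finset.range K) (f := fun i : ℕ => ⌊K * Int.fract (i * a)⌋₊)
    (n := N / K) (by
      intro i _
      rw [Finset.mem_range, Nat.floor_lt (mul_nonneg hK'.le (Int.fract_nonneg _))]
      have := Int.fract_lt_one ((i : ℝ) * a)
      nlinarith) ⟨0, Finset.mem_range.2 hK⟩ (by
      simp only [Finset.card_range, Nat.card_Icc, Nat.add_sub_cancel]
      exact Nat.mul_div_le N K)
  set S := (Finset.Icc 1 N).filter (fun i : ℕ => ⌊K * Int.fract (i * a)⌋₊ = k) with hS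
  let H : Finset ℕ → ℕ → ℤ := fun T i => ⌊i * a - k / K⌋ - if i ∈ T then 1 else 0
  have hH : ∀ T, T ⊆ S → ∀ i : ℕ,
      -(k / K : ℝ) - 1 - e < H T i - i * a ∧ H T i - i * a ≤ -(k / K : ℝ) := by
    intro T hT i
    have a1 := Int.floor_le ((i : ℝ) * a - k / K)
    have a2 := Int.lt_floor_add_one ((i : ℝ) * a - k / K)
    by_cases hi : i ∈ T
    · have hiS := (Finset.mem_filter.1 (hT hi)).2
      have h0 : 0 ≤ K * Int.fract ((i : ℝ) * a) := mul_nonneg hK'.le (Int.fract_nonneg _)
      have b1 := Nat.floor_le h0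
      have b2 := Nat.lt_floor_add_one (K * Int.fract ((i : ℝ) * a))
      rw [hiS] at b1 b2
      have c1 : (k / K : ℝ) ≤ Int.fract ((i : ℝ) * a) := by
        rw [div_le_iff₀ hK']; linarith
      have c2 : Int.fract ((i : ℝ) * a) < k / K + 1 / K := by
        rw [← add_div, lt_div_iff₀ hK']; linarith
      have d1 : ⌊(i : ℝ) * a⌋ ≤ ⌊(i : ℝ) * a - k / K⌋ := by
        rw [Int.le_floor]
        have := Int.self_sub_fract ((i : ℝ) * a)
        linarith
      have d2 : ((⌊(i : ℝ) * a⌋ : ℤ) : ℝ) ≤ ((⌊(i : ℝ) * a - k / K⌋ : ℤ) : ℝ) := by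
        exact_mod_cast d1
      have d3 := Int.self_sub_fract ((i : ℝ) * a)
      simp only [H, hi, if_true]
      push_cast
      constructor <;> linarith
    · simp only [H, hi, if_false]
      push_cast
      constructor <;> linarith
  have hW := fun T hT => window_mem x a e hc (H T) (-(k / K : ℝ)) (hH T hT)
  calc 2 ^ (N / K) ≤ 2 ^ S.card := Nat.pow_le_pow_right (by norm_num) hk
    _ = ((S.powerset : Finset (Finset ℕ)) : Set (Finset ℕ)).ncard := by
        rw [Set.ncard_coe_finset, Finset.card_powerset]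
    _ ≤ _ := by
        refine Set.ncard_le_ncard_of_injOn (fun T => fun j : Fin N => ofHeight (H T) j) ?_ ?_
          (Set.toFinite _)
        · intro T hT
          have hT' : T ⊆ S := Finset.mem_powerset.1 hT
          exact ⟨_, (hW T hT').1, 0, fun j => by simp⟩
        · intro T hT T' hT' h
          have h1 : T ⊆ S := Finset.mem_powerset.1 hT
          have h2 : T' ⊆ S := Finset.mem_powerset.1 hT'
          have h0 : ∀ U, U ⊆ S → 0 ∉ U := by
            intro U hU h0
            have := (Finset.mem_filter.1 (hU h0)).1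
            simp at this
          have hle : ∀ U, U ⊆ S → ∀ i ∈ U, i ≤ N := by
            intro U hU i hi
            exact (Finset.mem_Icc.1 (Finset.mem_filter.1 (hU hi)).1).2
          have hq : ∀ i, i ≤ N → (i ∈ T ↔ i ∈ T') := by
            intro i hi
            have e1 := pre_congr (y := ofHeight (H T)) (z := ofHeight (H T')) (N := N)
              (fun j hj => congrFun h ⟨j, hj⟩) i hi
            rw [(hW T h1).2, (hW T' h2).2] at e1
            simp only [H, h0 T h1, h0 T' h2, if_false] at e1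
            by_cases a1 : i ∈ T <;> by_cases a2 : i ∈ T' <;>
              simp only [a1, a2, if_true, if_false] at e1 ⊢ <;> first | trivial | omega
          ext i
          exact ⟨fun hi => (hq i (hle T h1 i hi)).1 hi, fun hi => (hq i (hle T' h2 i hi)).2 hi⟩

end Pool.Agent.Lib.MP_1706f7_co.Crit
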