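import Mathlib
import Pool.Agent.Lib.MP_1706f7_co.CritA

/-!
Entropy of abelian closures: the upper bound when the corridor is tight.
-/

open Filter Topology

namespace Pool.Agent.Lib.MP_1706f7_co.Crit

lemma cnt_eq_sum (y : ℕ → Fin 2) (i n : ℕ) :
    cnt y i n = ∑ j ∈ Finset.range n, val (y (i + j)) := pre_add y i n

/-- double counting -/
lemma sum_cnt (y : ℕ → Fin 2) (p n N : ℕ) :
    ∑ i ∈ Finset.range N, cnt y (p + i) n = ∑ j ∈ Finset.range n, cnt y (p + j) N := by
  simp only [cnt_eq_sum]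
  rw [Finset.sum_comm]
  refine Finset.sum_congr rfl fun j _ => Finset.sum_congr rfl fun i _ => ?_
  rw [add_right_comm]

lemma cnt_mul_ge (y : ℕ → Fin 2) (L : ℕ) (m : ℤ) (h : ∀ p, m ≤ cnt y p L) (t p : ℕ) :
    t * m ≤ cnt y p (t * L) := by
  induction t with
  | zero => simp [cnt]
  | succ t ih =>
    rw [Nat.succ_mul, cnt_add]
    have := h (p + t * L)
    push_cast; linarith

lemma cnt_mul_le (y : ℕ → Fin 2) (L : ℕ) (m : ℤ) (h : ∀ p, cnt y p L ≤ m) (t p : ℕ) :
    cnt y p (t * L) ≤ t * m := by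
  induction t with
  | zero => simp [cnt]
  | succ t ih =>
    rw [Nat.succ_mul, cnt_add]
    have := h (p + t * L)
    push_cast; linarith

/-- a bounded integer sequence whose defect has a small sum changes value rarely -/
lemma few_changes (c : ℕ → ℤ) (C r : ℤ) (N : ℕ) (hc : ∀ i, c i ≤ C)
    (hs : ∀ p, ∑ i ∈ Finset.range N, (C - c (p + i)) ≤ r) (p : ℕ) :
    (((Finset.range N).filter (fun i => c (p + i + 1) ≠ c (p + i))).card : ℤ) ≤ 2 * r := by
  have h1 := hs p
  have h2 := hs (p + 1)
  rw [Finset.card_filter]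
  push_cast
  calc ∑ i ∈ Finset.range N, (if c (p + i + 1) ≠ c (p + i) then (1 : ℤ) else 0)
      ≤ ∑ i ∈ Finset.range N, ((C - c (p + i)) + (C - c (p + 1 + i))) := by
        refine Finset.sum_le_sum fun i _ => ?_
        have a1 := hc (p + i)
        have a2 := hc (p + i + 1)
        rw [add_right_comm p 1 i]
        split_ifs with h <;> omega
    _ ≤ 2 * r := by rw [Finset.sum_add_distrib]; linarith

/-- positions where the word is not `n`-periodic -/
def bad (y : ℕ → Fin 2) (p n N : ℕ) : Finset ℕ :=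
  (Finset.range N).filter (fun i => y (p + i + n) ≠ y (p + i))

lemma bad_eq (y : ℕ → Fin 2) (p n N : ℕ) :
    bad y p n N = (Finset.range N).filter (fun i => cnt y (p + i + 1) n ≠ cnt y (p + i) n) := by
  refine Finset.filter_congr fun i _ => ?_
  have := cnt_step y (p + i) n
  constructor
  · intro h h'
    exact h (val_injective (by omega))
  · intro h h'
    rw [h'] at this
    omega

lemma bad_upper (y : ℕ → Fin 2) (n L t : ℕ) (M m : ℤ) (hM : ∀ p, cnt y p n ≤ M)
    (hm : ∀ p, m ≤ cnt y p L) (p : ℕ) :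
    ((bad y p n (t * L)).card : ℤ) ≤ 2 * (t * (L * M - n * m)) := by
  rw [bad_eq]
  refine few_changes (fun i => cnt y i n) M _ (t * L) hM (fun q => ?_) p
  rw [Finset.sum_sub_distrib, sum_cnt]
  have : ∑ j ∈ Finset.range n, (t * m : ℤ) ≤ ∑ j ∈ Finset.range n, cnt y (q + j) (t * L) :=
    Finset.sum_le_sum fun j _ => cnt_mul_ge y L m hm t _
  simp only [Finset.sum_const, Finset.card_range, nsmul_eq_mul] at this ⊢
  push_cast
  linarith

lemma bad_lower (y : ℕ → Fin 2) (n L t : ℕ) (M m : ℤ) (hm : ∀ p, m ≤ cnt y p n)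
    (hM : ∀ p, cnt y p L ≤ M) (p : ℕ) :
    ((bad y p n (t * L)).card : ℤ) ≤ 2 * (t * (n * M - L * m)) := by
  rw [bad_eq]
  have := few_changes (fun i => - cnt y i n) (-m) (t * (n * M - L * m)) (t * L)
    (fun i => by have := hm i; omega) (fun q => ?_) p
  · simpa using this
  · rw [Finset.sum_sub_distrib, Finset.sum_neg_distrib (f := fun i => cnt y (q + i) n), sum_cnt]
    have : ∑ j ∈ Finset.range n, cnt y (q + j) (t * L) ≤ ∑ j ∈ Finset.range n, (t * M : ℤ) :=
      Finset.sum_le_sum fun j _ => cnt_mul_le y L M hM t _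
    simp only [Finset.sum_const, Finset.card_range, nsmul_eq_mul] at this ⊢
    push_cast
    linarith

lemma fin2_eq {a b c d : Fin 2} (h1 : a = b) (h2 : c ≠ a ↔ d ≠ b) : c = d := by
  revert a b c d; decide

lemma blocks_le (X : Set (ℕ → Fin 2)) (n N : ℕ) (hn : 0 < n) (r : ℝ)
    (h : ∀ y ∈ X, ∀ p, ((bad y p n N).card : ℝ) ≤ r) :
    (blocks X N).ncard ≤
      2 ^ n * ((Finset.range N).powerset.filter (fun E => (E.card : ℝ) ≤ r)).card := by
  classical
  have hch : ∀ w : blocks X N, ∃ q : (ℕ → Fin 2) × ℕ, q.1 ∈ X ∧ ∀ j : Fin N, w.1 j = q.1 (q.2 + j) := by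
    rintro ⟨w, y, hy, p, hp⟩
    exact ⟨(y, p), hy, hp⟩
  choose q hq using hch
  set F := (Finset.range N).powerset.filter (fun E => (E.card : ℝ) ≤ r) with hF
  let f : blocks X N → (Fin n → Fin 2) × F := fun w =>
    (fun j => (q w).1 ((q w).2 + j), ⟨bad (q w).1 (q w).2 n N,
      Finset.mem_filter.2 ⟨Finset.mem_powerset.2 (Finset.filter_subset _ _), h _ (hq w).1 _⟩⟩)
  have hf : Function.Injective f := by
    intro w w' hww
    have h1 := congrArg Prod.fst hww
    have h2 : bad (q w).1 (q w).2 n N = bad (q w').1 (q w').2 n N :=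
      congrArg Subtype.val (congrArg Prod.snd hww)
    have key : ∀ i, i < N → (q w).1 ((q w).2 + i) = (q w').1 ((q w').2 + i) := by
      intro i
      induction i using Nat.strong_induction_on with
      | _ i ih =>
        intro hi
        by_cases hin : i < n
        · exact congrFun h1 ⟨i, hin⟩
        · obtain ⟨d, rfl⟩ := Nat.exists_eq_add_of_le' (not_lt.1 hin)
          have hd : d < N := by omega
          have e1 := ih d (by omega) hd
          have e2 : d ∈ bad (q w).1 (q w).2 n N ↔ d ∈ bad (q w').1 (q w').2 n N := by rw [h2]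
          simp only [bad, Finset.mem_filter, Finset.mem_range, hd, true_and] at e2
          rw [← add_assoc, ← add_assoc]
          exact fin2_eq e1 e2
    refine Subtype.ext (funext fun j => ?_)
    rw [(hq w).2 j, (hq w').2 j, key j j.2]
  have := Nat.card_le_card_of_injective f hf
  rw [Nat.card_coe_set_eq] at this
  simpa using this

lemma small_subsets (N : ℕ) (r s : ℝ) (hs : 0 ≤ s) :
    (((Finset.range N).powerset.filter (fun E => (E.card : ℝ) ≤ r)).card : ℝ) ≤
      Real.exp (N * Real.exp (-s) + s * r) := by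
  classical
  set F := (Finset.range N).powerset.filter (fun E => (E.card : ℝ) ≤ r) with hF
  have h1 : (F.card : ℝ) * Real.exp (-(s * r)) ≤ ∑ E ∈ F, Real.exp (-s) ^ E.card := by
    rw [← nsmul_eq_mul, ← Finset.sum_const]
    refine Finset.sum_le_sum fun E hE => ?_
    rw [← Real.exp_nat_mul]
    have := (Finset.mem_filter.1 hE).2
    exact Real.exp_le_exp.2 (by nlinarith)
  have h2 : ∑ E ∈ F, Real.exp (-s) ^ E.card ≤
      ∑ E ∈ (Finset.range N).powerset, Real.exp (-s) ^ E.card :=
    Finset.sum_le_sum_of_subset_of_nonneg (Finset.filter_subset _ _) fun _ _ _ => by positivity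
  have h3 : ∑ E ∈ (Finset.range N).powerset, Real.exp (-s) ^ E.card = (Real.exp (-s) + 1) ^ N := by
    have := Finset.sum_pow_mul_eq_add_pow (Real.exp (-s)) 1 (Finset.range N)
    simpa using this
  have h4 : (Real.exp (-s) + 1) ^ N ≤ Real.exp (N * Real.exp (-s)) := by
    rw [Real.exp_nat_mul]
    exact pow_le_pow_left₀ (by positivity) (Real.add_one_le_exp _) N
  have h5 : (F.card : ℝ) * Real.exp (-(s * r)) ≤ Real.exp (N * Real.exp (-s)) := by linarith
  rw [Real.exp_neg (s * r), ← div_eq_mul_inv, div_le_iff₀ (Real.exp_pos _), ← Real.exp_add] at h5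
  exact h5

/-- the entropy is small as soon as the words are nearly periodic along multiples of `L` -/
lemma limit_le (x : ℕ → Fin 2) (h : ℝ)
    (hh : Tendsto (fun n : ℕ => Real.log ((blocks (abelianClosure x) n).ncard) / n) atTop (𝓝 h))
    (n L : ℕ) (hn : 0 < n) (hL : 0 < L) (θ s : ℝ) (hs : 0 ≤ s)
    (hb : ∀ y ∈ abelianClosure x, ∀ t p, ((bad y p n (t * L)).card : ℝ) ≤ θ * (t * L : ℕ)) :
    h ≤ Real.exp (-s) + s * θ := by
  have hm : Tendsto (fun t : ℕ => t * L) atTop atTop :=
    tendsto_atTop_mono (fun t => Nat.le_mul_of_pos_right t hL) tendsto_id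
  have h1 := hh.comp hm
  have h2 : Tendsto (fun N : ℕ => (n * Real.log 2) / (N : ℝ) + (Real.exp (-s) + s * θ)) atTop
      (𝓝 (0 + (Real.exp (-s) + s * θ))) :=
    (tendsto_const_div_atTop_nhds_zero_nat _).add tendsto_const_nhds
  rw [zero_add] at h2
  refine le_of_tendsto_of_tendsto h1 (h2.comp hm) ?_
  filter_upwards [eventually_gt_atTop 0] with t ht
  have hN : (0 : ℝ) < (t * L : ℕ) := by exact_mod_cast Nat.mul_pos ht hL
  simp only [Function.comp]
  set N := t * L with hNdef
  have a1 := blocks_le (abelianClosure x) n N hn (θ * N) (fun y hy p => hb y hy t p)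
  have a2 := small_subsets N (θ * N) s hs
  have a3 : ((blocks (abelianClosure x) N).ncard : ℝ) ≤
      Real.exp (n * Real.log 2 + (N * Real.exp (-s) + s * (θ * N))) := by
    rw [Real.exp_add, Real.exp_nat_mul, Real.exp_log (by norm_num)]
    have a1' : ((blocks (abelianClosure x) N).ncard : ℝ) ≤ 2 ^ n *
        (((Finset.range N).powerset.filter (fun E => (E.card : ℝ) ≤ θ * N)).card : ℝ) := by
      exact_mod_cast a1
    exact a1'.trans (mul_le_mul_of_nonneg_left a2 (by positivity))
  have a4 : (0 : ℝ) < (blocks (abelianClosure x) N).ncard := by exact_mod_cast blocks_pos x N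
  have a5 := (Real.log_le_iff_le_exp a4).2 a3
  rw [div_le_iff₀ hN, add_mul, div_mul_cancel₀ _ hN.ne']
  linarith

end Pool.Agent.Lib.MP_1706f7_co.Crit
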