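import Mathlib
import Pool.Agent.Lib.MP_1706f7_co.CritB

/-!
Entropy of abelian closures: the criterion.
-/

open Filter Topology

namespace Pool.Agent.Lib.MP_1706f7_co.Crit

lemma exists_max (x : ℕ → Fin 2) (n : ℕ) : ∃ k, ∀ p, cnt x p n ≤ cnt x k n := by
  obtain ⟨_, ⟨k, rfl⟩, h⟩ := Int.exists_greatest_of_bdd (P := fun z => ∃ k, cnt x k n = z)
    ⟨n, by rintro _ ⟨k, rfl⟩; exact (cnt_bounds x k n).2⟩ ⟨_, 0, rfl⟩
  exact ⟨k, fun p => h _ ⟨p, rfl⟩⟩

lemma exists_min (x : ℕ → Fin 2) (n : ℕ) : ∃ k, ∀ p, cnt x k n ≤ cnt x p n := by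
  obtain ⟨_, ⟨k, rfl⟩, h⟩ := Int.exists_least_of_bdd (P := fun z => ∃ k, cnt x k n = z)
    ⟨0, by rintro _ ⟨k, rfl⟩; exact (cnt_bounds x k n).1⟩ ⟨_, 0, rfl⟩
  exact ⟨k, fun p => h _ ⟨p, rfl⟩⟩

/-- when the criterion fails the corridor is tight -/
lemma tight (m M : ℕ → ℝ) (hmM : ∀ n L : ℕ, n * m L ≤ L * M n)
    (hno : ¬ ∃ a e : ℝ, 0 < e ∧ ∀ n : ℕ, 1 ≤ n → m n + e ≤ n * a ∧ n * a + e ≤ M n)
    (e : ℝ) (he : 0 < e) :
    ∃ n L : ℕ, 0 < n ∧ 0 < L ∧ (L * M n - n * m L ≤ e * L ∨ n * M L - L * m n ≤ e * L) := by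
  by_contra hcon
  push Not at hcon
  let A : Set ℝ := {z | ∃ L : ℕ, 0 < L ∧ z = m L / L}
  let B : Set ℝ := {z | ∃ L : ℕ, 0 < L ∧ z = M L / L}
  have hA : A.Nonempty := ⟨_, 1, one_pos, rfl⟩
  have hB : B.Nonempty := ⟨_, 1, one_pos, rfl⟩
  have hAB : ∀ u ∈ A, ∀ v ∈ B, u ≤ v := by
    rintro _ ⟨L, hL, rfl⟩ _ ⟨n, hn, rfl⟩
    have hL' : (0 : ℝ) < L := by exact_mod_cast hL
    have hn' : (0 : ℝ) < n := by exact_mod_cast hn
    rw [div_le_div_iff₀ hL' hn']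
    have := hmM n L
    linarith
  have hAb : BddAbove A := ⟨_, fun u hu => hAB u hu _ ⟨1, one_pos, rfl⟩⟩
  have hBb : BddBelow B := ⟨_, fun v hv => hAB _ ⟨1, one_pos, rfl⟩ v hv⟩
  have hab : sSup A ≤ sInf B := csSup_le hA fun u hu => le_csInf hB fun v hv => hAB u hu v hv
  rcases hab.lt_or_eq with hlt | heq
  · refine hno ⟨(sSup A + sInf B) / 2, (sInf B - sSup A) / 2, by linarith, fun n hn => ?_⟩
    have hn1 : (1 : ℝ) ≤ n := by exact_mod_cast hn
    have hn' : (0 : ℝ) < n := by linarith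
    have h1 : m n / n ≤ sSup A := le_csSup hAb ⟨n, hn, rfl⟩
    have h2 : sInf B ≤ M n / n := csInf_le hBb ⟨n, hn, rfl⟩
    rw [div_le_iff₀ hn'] at h1
    rw [le_div_iff₀ hn'] at h2
    constructor <;> nlinarith
  · refine hno ⟨sSup A, e, he, fun n hn => ?_⟩
    have hn' : (0 : ℝ) < n := by exact_mod_cast hn
    have h1 : sSup A ≤ (M n - e) / n := by
      refine csSup_le hA ?_
      rintro _ ⟨L, hL, rfl⟩
      have hL' : (0 : ℝ) < L := by exact_mod_cast hL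
      rw [div_le_div_iff₀ hL' hn']
      have := (hcon n L hn hL).1
      linarith
    have h2 : (m n + e) / n ≤ sInf B := by
      refine le_csInf hB ?_
      rintro _ ⟨L, hL, rfl⟩
      have hL' : (0 : ℝ) < L := by exact_mod_cast hL
      rw [div_le_div_iff₀ hn' hL']
      have := (hcon n L hn hL).2
      linarith
    rw [le_div_iff₀ hn'] at h1
    rw [← heq, div_le_iff₀ hn'] at h2
    constructor <;> linarith

/-- the criterion in terms of positions -/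
def Room (x : ℕ → Fin 2) : Prop :=
  ∃ a e : ℝ, 0 < e ∧ ∀ n : ℕ, 1 ≤ n →
    (∃ k, (cnt x k n : ℝ) + e ≤ n * a) ∧ ∃ k, n * a + e ≤ (cnt x k n : ℝ)

lemma pos_of_room (x : ℕ → Fin 2) (h : ℝ)
    (hh : Tendsto (fun n : ℕ => Real.log ((blocks (abelianClosure x) n).ncard) / n) atTop (𝓝 h))
    (hr : Room x) : 0 < h := by
  obtain ⟨a, e, he, hc⟩ := hr
  obtain ⟨K, hK⟩ := exists_nat_one_div_lt he
  have hK0 : 0 < K + 1 := Nat.succ_pos K
  have hKe : 1 / ((K + 1 : ℕ) : ℝ) ≤ e := by push_cast; exact hK.le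
  have hm : Tendsto (fun t : ℕ => t * (K + 1)) atTop atTop :=
    tendsto_atTop_mono (fun t => Nat.le_mul_of_pos_right t hK0) tendsto_id
  have hK' : (0 : ℝ) < ((K + 1 : ℕ) : ℝ) := by exact_mod_cast hK0
  have h2 : (0 : ℝ) < Real.log 2 := Real.log_pos (by norm_num)
  refine lt_of_lt_of_le (div_pos h2 hK') (ge_of_tendsto (hh.comp hm) ?_)
  filter_upwards [eventually_gt_atTop 0] with t ht
  have a1 := lower x a e (K + 1) hK0 hKe hc (t * (K + 1))
  rw [Nat.mul_div_cancel _ hK0] at a1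
  have a2 : (2 : ℝ) ^ t ≤ ((blocks (abelianClosure x) (t * (K + 1))).ncard : ℝ) := by
    exact_mod_cast a1
  have a3 := Real.log_le_log (by positivity) a2
  rw [Real.log_pow] at a3
  have ht' : (0 : ℝ) < t := by exact_mod_cast ht
  simp only [Function.comp]
  rw [Nat.cast_mul, div_le_div_iff₀ hK' (mul_pos ht' hK')]
  nlinarith

lemma nonpos_of_not_room (x : ℕ → Fin 2) (h : ℝ)
    (hh : Tendsto (fun n : ℕ => Real.log ((blocks (abelianClosure x) n).ncard) / n) atTop (𝓝 h))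
    (hr : ¬ Room x) : h ≤ 0 := by
  choose kM hM using exists_max x
  choose km hm using exists_min x
  have hyM : ∀ y ∈ abelianClosure x, ∀ n p, cnt y p n ≤ cnt x (kM n) n := by
    intro y hy n p
    obtain ⟨k, hk⟩ := (mem_closure_iff x y).1 hy p n
    rw [hk]; exact hM n k
  have hym : ∀ y ∈ abelianClosure x, ∀ n p, cnt x (km n) n ≤ cnt y p n := by
    intro y hy n p
    obtain ⟨k, hk⟩ := (mem_closure_iff x y).1 hy p n
    rw [hk]; exact hm n k
  have ht := tight (fun n => (cnt x (km n) n : ℝ)) (fun n => (cnt x (kM n) n : ℝ)) (by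
      intro n L
      have h1 := cnt_mul_ge x L _ (hm L) n 0
      have h2 := cnt_mul_le x n _ (hM n) L 0
      rw [Nat.mul_comm L n] at h2
      exact_mod_cast h1.trans h2) (by
      rintro ⟨a, e, he, hc⟩
      exact hr ⟨a, e, he, fun n hn => ⟨⟨_, (hc n hn).1⟩, ⟨_, (hc n hn).2⟩⟩⟩)
  refine le_of_forall_pos_le_add fun η hη => ?_
  obtain ⟨n, L, hn, hL, hcase⟩ := ht ((η / 3) ^ 2) (by positivity)
  have hs : (0 : ℝ) < 3 / η := by positivity
  have key := limit_le x h hh n L hn hL (2 * (η / 3) ^ 2) (3 / η) hs.le (by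
    intro y hy t p
    have ht0 : (0 : ℝ) ≤ t := Nat.cast_nonneg t
    rcases hcase with hc | hc
    · have b1 := bad_upper y n L t _ _ (hyM y hy n) (hym y hy L) p
      have b2 : ((bad y p n (t * L)).card : ℝ) ≤
          2 * (t * (L * (cnt x (kM n) n : ℝ) - n * (cnt x (km L) L : ℝ))) := by exact_mod_cast b1
      have b3 := mul_le_mul_of_nonneg_left hc ht0
      push_cast
      linarith
    · have b1 := bad_lower y n L t _ _ (hym y hy n) (hyM y hy L) p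
      have b2 : ((bad y p n (t * L)).card : ℝ) ≤
          2 * (t * (n * (cnt x (kM L) L : ℝ) - L * (cnt x (km n) n : ℝ))) := by exact_mod_cast b1
      have b3 := mul_le_mul_of_nonneg_left hc ht0
      push_cast
      linarith)
  have e1 : Real.exp (-(3 / η)) ≤ η / 3 := by
    rw [Real.exp_neg, inv_le_comm₀ (Real.exp_pos _) (by positivity), inv_div]
    have := Real.add_one_le_exp (3 / η)
    linarith
  have e2 : 3 / η * (2 * (η / 3) ^ 2) = 2 * (η / 3) := by field_simp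
  rw [e2] at key
  linarith

lemma room_iff (x : ℕ → Fin 2) : Room x ↔ ∃ a e : ℝ, 0 < e ∧ ∀ n : ℕ, 1 ≤ n →
    (∃ u ∈ factors x n, (ones u : ℝ) + e ≤ n * a) ∧ ∃ v ∈ factors x n, n * a + e ≤ (ones v : ℝ) := by
  have h1 : ∀ k n, ((ones (fun j : Fin n => x (k + j)) : ℕ) : ℝ) = (cnt x k n : ℝ) := by
    intro k n
    have := ones_eq x k (fun j : Fin n => x (k + j)) (fun _ => rfl)
    unfold cnt
    exact_mod_cast this
  have h2 : ∀ n, ∀ u ∈ factors x n, ∃ k, ((ones u : ℕ) : ℝ) = (cnt x k n : ℝ) := by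
    rintro n u ⟨k, hk⟩
    have := ones_eq x k u hk
    refine ⟨k, ?_⟩
    unfold cnt
    exact_mod_cast this
  constructor
  · rintro ⟨a, e, he, hc⟩
    refine ⟨a, e, he, fun n hn => ?_⟩
    obtain ⟨⟨k, hk⟩, ⟨l, hl⟩⟩ := hc n hn
    exact ⟨⟨_, ⟨k, fun _ => rfl⟩, by rw [h1]; exact hk⟩, ⟨_, ⟨l, fun _ => rfl⟩, by rw [h1]; exact hl⟩⟩
  · rintro ⟨a, e, he, hc⟩
    refine ⟨a, e, he, fun n hn => ?_⟩
    obtain ⟨⟨u, hu, hu'⟩, ⟨v, hv, hv'⟩⟩ := hc n hn
    obtain ⟨k, hk⟩ := h2 n u hu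
    obtain ⟨l, hl⟩ := h2 n v hv
    exact ⟨⟨k, by rw [← hk]; exact hu'⟩, ⟨l, by rw [← hl]; exact hv'⟩⟩

/-- The entropy of the abelian closure exists, and it is positive exactly when the numbers of
letters 1 in factors leave room on both sides of a line. -/
theorem criterion (x : ℕ → Fin 2) : ∃ h : ℝ,
    Tendsto (fun n : ℕ => Real.log ((blocks (abelianClosure x) n).ncard) / n) atTop (𝓝 h) ∧
    (0 < h ↔ ∃ a e : ℝ, 0 < e ∧ ∀ n : ℕ, 1 ≤ n →
      (∃ u ∈ factors x n, (ones u : ℝ) + e ≤ n * a) ∧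
        ∃ v ∈ factors x n, n * a + e ≤ (ones v : ℝ)) := by
  obtain ⟨h, hh⟩ := exists_limit x
  refine ⟨h, hh, ?_⟩
  rw [← room_iff]
  refine ⟨fun hp => ?_, pos_of_room x h hh⟩
  by_contra hr
  exact absurd (nonpos_of_not_room x h hh hr) (not_le.2 hp)

/-- zero entropy when the criterion fails -/
theorem tendsto_zero_of_not_room (x : ℕ → Fin 2) (hr : ¬ Room x) :
    Tendsto (fun n : ℕ => Real.log ((blocks (abelianClosure x) n).ncard) / n) atTop (𝓝 0) := by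
  obtain ⟨h, hh⟩ := exists_limit x
  have h0 : 0 ≤ h := ge_of_tendsto' hh fun n =>
    div_nonneg (Real.log_natCast_nonneg _) (Nat.cast_nonneg _)
  rwa [le_antisymm (nonpos_of_not_room x h hh hr) h0] at hh

end Pool.Agent.Lib.MP_1706f7_co.Crit
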