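import Mathlib
import Pool.Agent.Lib.MP_1706f7_co.CritC

/-!
Entropy of abelian closures: a rational frequency leaves room.
-/

open Filter Topology

namespace Pool.Agent.Lib.MP_1706f7_co.Crit

lemma tendsto_cnt {x : ℕ → Fin 2} {α : ℝ} (hf : HasFrequency x α) (j : ℕ) :
    Tendsto (fun N : ℕ => (cnt x j N : ℝ) / N) atTop (𝓝 α) := by
  have h0 : Tendsto (fun N : ℕ => (cnt x 0 N : ℝ) / N) atTop (𝓝 α) := by
    refine hf.congr fun N => ?_
    have := ones_eq x 0 (fun i : Fin N => x i) (fun i => by simp)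
    have h2 : ((ones (fun i : Fin N => x i) : ℕ) : ℝ) = (cnt x 0 N : ℝ) := by
      unfold cnt; exact_mod_cast this
    rw [h2]
  have h1 : Tendsto (fun N : ℕ => (j : ℝ) / N) atTop (𝓝 0) := tendsto_const_div_atTop_nhds_zero_nat _
  have hb : ∀ N : ℕ, (cnt x 0 N : ℝ) - j ≤ cnt x j N ∧ (cnt x j N : ℝ) ≤ cnt x 0 N + j := by
    intro N
    have e1 := cnt_add x 0 j N
    have e2 := cnt_add x 0 N j
    rw [Nat.add_comm N j, e1, Nat.zero_add, Nat.zero_add] at e2
    have b1 := cnt_bounds x 0 j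
    have b2 := cnt_bounds x N j
    have c1 : cnt x 0 N - j ≤ cnt x j N := by omega
    have c2 : cnt x j N ≤ cnt x 0 N + j := by omega
    exact ⟨by exact_mod_cast c1, by exact_mod_cast c2⟩
  have l1 := h0.sub h1
  have l2 := h0.add h1
  rw [sub_zero] at l1
  rw [add_zero] at l2
  refine tendsto_of_tendsto_of_tendsto_of_le_of_le l1 l2 (fun N => ?_) (fun N => ?_)
  · show _ - _ ≤ _
    rw [← sub_div]
    exact div_le_div_of_nonneg_right (hb N).1 (Nat.cast_nonneg _)
  · show _ ≤ _ + _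
    rw [← add_div]
    exact div_le_div_of_nonneg_right (hb N).2 (Nat.cast_nonneg _)

lemma tendsto_avg {x : ℕ → Fin 2} {α : ℝ} (hf : HasFrequency x α) (n : ℕ) :
    Tendsto (fun N : ℕ => (∑ i ∈ Finset.range N, ((cnt x i n : ℝ) - n * α)) / N) atTop (𝓝 0) := by
  have h1 : Tendsto (fun N : ℕ => ∑ j ∈ Finset.range n, (cnt x j N : ℝ) / N) atTop
      (𝓝 (∑ _j ∈ Finset.range n, α)) := tendsto_finsetSum _ fun j _ => tendsto_cnt hf j
  simp only [Finset.sum_const, Finset.card_range, nsmul_eq_mul] at h1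
  have h2 := h1.sub_const (n * α)
  rw [sub_self] at h2
  refine h2.congr' ?_
  filter_upwards [eventually_gt_atTop 0] with N hN
  have hN' : (0 : ℝ) < N := by exact_mod_cast hN
  have e1 := sum_cnt x 0 n N
  simp only [Nat.zero_add] at e1
  have e2 : ∑ i ∈ Finset.range N, (cnt x i n : ℝ) = ∑ j ∈ Finset.range n, (cnt x j N : ℝ) := by
    exact_mod_cast e1
  rw [Finset.sum_sub_distrib, e2, ← Finset.sum_div]
  simp only [Finset.sum_const, Finset.card_range, nsmul_eq_mul]
  field_simp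

lemma zero_of_avg (f : ℕ → ℝ) (h0 : ∀ i, 0 ≤ f i)
    (hav : Tendsto (fun N : ℕ => (∑ i ∈ Finset.range N, f i) / N) atTop (𝓝 0)) (c : ℝ) (B : ℕ)
    (hB : ∀ i, ∃ k, i ≤ k ∧ k ≤ i + B ∧ f k = c) : c ≤ 0 := by
  have hs : ∀ t : ℕ, t * c ≤ ∑ i ∈ Finset.range (t * (B + 1)), f i := by
    intro t
    induction t with
    | zero => simp
    | succ t ih =>
      rw [Nat.succ_mul, Finset.sum_range_add]
      obtain ⟨k, h1, h2, h3⟩ := hB (t * (B + 1))
      obtain ⟨d, rfl⟩ := Nat.exists_eq_add_of_le h1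
      have : f (t * (B + 1) + d) ≤ ∑ i ∈ Finset.range (B + 1), f (t * (B + 1) + i) :=
        Finset.single_le_sum (f := fun i => f (t * (B + 1) + i)) (fun i _ => h0 _)
          (Finset.mem_range.2 (by omega))
      push_cast
      linarith
  have hm : Tendsto (fun t : ℕ => t * (B + 1)) atTop atTop :=
    tendsto_atTop_mono (fun t => Nat.le_mul_of_pos_right t (Nat.succ_pos B)) tendsto_id
  have hB' : (0 : ℝ) < ((B + 1 : ℕ) : ℝ) := by exact_mod_cast Nat.succ_pos B
  have key : c / ((B + 1 : ℕ) : ℝ) ≤ 0 := by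
    refine ge_of_tendsto (hav.comp hm) ?_
    filter_upwards [eventually_gt_atTop 0] with t ht
    have ht' : (0 : ℝ) < t := by exact_mod_cast ht
    simp only [Function.comp]
    rw [Nat.cast_mul, div_le_div_iff₀ hB' (mul_pos ht' hB')]
    have := hs t
    nlinarith
  rwa [div_le_iff₀ hB', zero_mul] at key

lemma cnt_recur {x : ℕ → Fin 2} (hu : UniformlyRecurrent x) (k n : ℕ) :
    ∃ B : ℕ, ∀ i, ∃ l, i ≤ l ∧ l ≤ i + B ∧ cnt x l n = cnt x k n := by
  obtain ⟨B, hB⟩ := hu n (fun j => x (k + j)) ⟨k, fun _ => rfl⟩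
  refine ⟨B, fun i => ?_⟩
  obtain ⟨l, h1, h2, h3⟩ := hB i
  refine ⟨l, h1, h2, ?_⟩
  unfold cnt
  rw [← ones_eq x l _ h3, ← ones_eq x k (fun j : Fin n => x (k + j)) (fun _ => rfl)]

lemma not_const {x : ℕ → Fin 2} (ha : Aperiodic x) {n : ℕ} (hn : 1 ≤ n) (c : ℝ) :
    ¬ ∀ k, (cnt x k n : ℝ) = c := by
  intro h
  refine ha ⟨n, 0, hn, fun i _ => val_injective ?_⟩
  have e1 := cnt_step x i n
  have e2 : cnt x (i + 1) n = cnt x i n := by exact_mod_cast (h (i + 1)).trans (h i).symm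
  omega

/-- A uniformly recurrent aperiodic word with a frequency has counts on both sides of the line. -/
lemma both_sides {x : ℕ → Fin 2} (hu : UniformlyRecurrent x) (ha : Aperiodic x) {α : ℝ}
    (hf : HasFrequency x α) {n : ℕ} (hn : 1 ≤ n) :
    (∃ k, (cnt x k n : ℝ) < n * α) ∧ ∃ k, n * α < (cnt x k n : ℝ) := by
  have hav := tendsto_avg hf n
  constructor
  · by_contra h
    push Not at h
    refine not_const ha hn (n * α) fun k => ?_
    obtain ⟨B, hB⟩ := cnt_recur hu k n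
    have := zero_of_avg (fun i => (cnt x i n : ℝ) - n * α) (fun i => sub_nonneg.2 (h i)) hav
      ((cnt x k n : ℝ) - n * α) B (fun i => by
        obtain ⟨l, h1, h2, h3⟩ := hB i
        exact ⟨l, h1, h2, by rw [h3]⟩)
    have := h k
    linarith
  · by_contra h
    push Not at h
    refine not_const ha hn (n * α) fun k => ?_
    obtain ⟨B, hB⟩ := cnt_recur hu k n
    have hav' : Tendsto (fun N : ℕ => (∑ i ∈ Finset.range N, -((cnt x i n : ℝ) - n * α)) / N)
        atTop (𝓝 0) := by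
      have := hav.neg
      rw [neg_zero] at this
      refine this.congr fun N => ?_
      rw [Finset.sum_neg_distrib, neg_div]
    have := zero_of_avg (fun i => -((cnt x i n : ℝ) - n * α))
      (fun i => by have := h i; linarith) hav'
      (-((cnt x k n : ℝ) - n * α)) B (fun i => by
        obtain ⟨l, h1, h2, h3⟩ := hB i
        exact ⟨l, h1, h2, by rw [h3]⟩)
    have := h k
    linarith

theorem room_of_rational {x : ℕ → Fin 2} (hu : UniformlyRecurrent x) (ha : Aperiodic x) {α : ℝ}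
    (hα : ¬ Irrational α) (hf : HasFrequency x α) : Room x := by
  obtain ⟨r, rfl⟩ : ∃ r : ℚ, (r : ℝ) = α := not_not.1 hα
  have hd : (0 : ℝ) < r.den := by exact_mod_cast r.den_pos
  have hr : (r : ℝ) = r.num / r.den := by exact_mod_cast (Rat.num_div_den r).symm
  refine ⟨r, 1 / r.den, by positivity, fun n hn => ?_⟩
  obtain ⟨⟨k, hk⟩, ⟨l, hl⟩⟩ := both_sides hu ha hf hn
  rw [hr, ← mul_div_assoc] at hk hl ⊢
  rw [lt_div_iff₀ hd] at hk
  rw [div_lt_iff₀ hd] at hl
  have h1 : cnt x k n * r.den + 1 ≤ n * r.num := by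
    have : cnt x k n * r.den < n * r.num := by exact_mod_cast hk
    omega
  have h2 : n * r.num + 1 ≤ cnt x l n * r.den := by
    have : n * r.num < cnt x l n * r.den := by exact_mod_cast hl
    omega
  have h1' : (cnt x k n : ℝ) * r.den + 1 ≤ n * r.num := by exact_mod_cast h1
  have h2' : (n : ℝ) * r.num + 1 ≤ cnt x l n * r.den := by exact_mod_cast h2
  refine ⟨⟨k, ?_⟩, ⟨l, ?_⟩⟩
  · rw [le_div_iff₀ hd, add_mul, div_mul_cancel₀ _ hd.ne']; exact h1'
  · rw [← add_div, div_le_iff₀ hd]; exact h2'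

end Pool.Agent.Lib.MP_1706f7_co.Crit
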