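import Mathlib

/-! Factors, weights and abelian closures of one-sided infinite binary words. -/

namespace Pool.Agent.Lib.MP_1706f7_co

/-- The set of factors of length `n` of the one-sided infinite binary word `x`. -/
def factors (x : ℕ → Fin 2) (n : ℕ) : Set (Fin n → Fin 2) :=
  {w | ∃ i : ℕ, ∀ j : Fin n, w j = x (i + j)}

/-- The number of letters 1 in a finite binary word. -/
def ones {n : ℕ} (w : Fin n → Fin 2) : ℕ :=
  (Finset.univ.filter (fun j => w j = 1)).card

/-- The words all of whose factors are abelian equivalent to a factor of `x`. -/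
def abelianClosure (x : ℕ → Fin 2) : Set (ℕ → Fin 2) :=
  {y | ∀ n : ℕ, ∀ v ∈ factors y n, ∃ u ∈ factors x n, ones v = ones u}

/-- The blocks of length `n` occurring in some element of `X`. -/
def blocks (X : Set (ℕ → Fin 2)) (n : ℕ) : Set (Fin n → Fin 2) :=
  {w | ∃ y ∈ X, w ∈ factors y n}

end Pool.Agent.Lib.MP_1706f7_co
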