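import Mathlib
import Pool.Agent.Lib.MP_1706f7_co.CritC

/-!
For every irrational frequency a uniformly recurrent, aperiodic, non-Sturmian binary word whose
factor weights come arbitrarily close to the line of the frequency from above.
-/

open Filter Topology

namespace Pool.Agent.Lib.MP_1706f7_co.Ex

open Pool.Agent.Lib.MP_1706f7_co.Crit (factors ones UniformlyRecurrent Aperiodic Sturmian
  abelianClosure blocks HasFrequency)

/-- For some slope `a`, in every length `n ≥ 1` some factor of `x` has at most `n a - η` letters 1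
and some factor has at least `n a + η` letters 1. -/
def Slack (x : ℕ → Fin 2) (η : ℝ) : Prop :=
  ∃ a : ℝ, ∀ n : ℕ, 1 ≤ n → (∃ u ∈ factors x n, (ones u : ℝ) ≤ n * a - η) ∧
    (∃ u ∈ factors x n, (n : ℝ) * a + η ≤ ones u)

/-! ### Heights -/

/-- integer value of a letter -/
def val (a : Fin 2) : ℤ := if a = 1 then 1 else 0

/-- initial sums of a word -/
def pre (y : ℕ → Fin 2) (n : ℕ) : ℤ := ∑ j ∈ Finset.range n, val (y j)

/-- weight of the factor of length `n` at position `i` -/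
def wt (y : ℕ → Fin 2) (i n : ℕ) : ℤ := pre y (i + n) - pre y i

lemma val_cases (a : Fin 2) : val a = 0 ∨ val a = 1 := by
  unfold val; split_ifs <;> simp

lemma val_injective {a b : Fin 2} (h : val a = val b) : a = b := by
  fin_cases a <;> fin_cases b <;> simp_all [val]

lemma pre_succ (y : ℕ → Fin 2) (n : ℕ) : pre y (n + 1) = pre y n + val (y n) := by
  simp [pre, Finset.sum_range_succ]

lemma wt_eq_sum (y : ℕ → Fin 2) (i n : ℕ) :
    wt y i n = ∑ j ∈ Finset.range n, val (y (i + j)) := by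
  simp [wt, pre, Finset.sum_range_add]

lemma ones_eq {n : ℕ} (y : ℕ → Fin 2) (i : ℕ) (w : Fin n → Fin 2)
    (h : ∀ j : Fin n, w j = y (i + j)) : (ones w : ℤ) = wt y i n := by
  rw [wt_eq_sum, ones, Finset.card_filter,
    ← Fin.sum_univ_eq_sum_range (fun j => val (y (i + j))) n]
  push_cast
  refine Finset.sum_congr rfl fun j _ => ?_
  rw [h j]; rfl

lemma wt_add (y : ℕ → Fin 2) (i m n : ℕ) : wt y i (m + n) = wt y i m + wt y (i + m) n := by
  simp only [wt, add_assoc]; ring

lemma wt_shift (y : ℕ → Fin 2) (i n : ℕ) :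
    wt y (i + 1) n - wt y i n = val (y (i + n)) - val (y i) := by
  have e : i + 1 + n = i + n + 1 := by ring
  simp only [wt, e, pre_succ]; ring

lemma wt_bounds (y : ℕ → Fin 2) (i n : ℕ) : 0 ≤ wt y i n ∧ wt y i n ≤ n := by
  induction n with
  | zero => simp [wt]
  | succ n ih =>
    have e : wt y i (n + 1) = wt y i n + val (y (i + n)) := by
      simp only [wt, ← add_assoc, pre_succ]; ring
    rcases val_cases (y (i + n)) with h | h <;> rw [e, h] <;> push_cast <;> omega

lemma slack_iff (x : ℕ → Fin 2) (η : ℝ) : Slack x η ↔ ∃ a : ℝ, ∀ n : ℕ, 1 ≤ n →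
    (∃ k, (wt x k n : ℝ) ≤ n * a - η) ∧ (∃ k, (n : ℝ) * a + η ≤ wt x k n) := by
  have key : ∀ (n : ℕ) (P : ℝ → Prop), (∃ u ∈ factors x n, P (ones u)) ↔ ∃ k, P (wt x k n) := by
    intro n P
    constructor
    · rintro ⟨u, ⟨k, hk⟩, hu⟩
      refine ⟨k, ?_⟩
      rw [← ones_eq x k u hk]; exact_mod_cast hu
    · rintro ⟨k, hk⟩
      refine ⟨fun j => x (k + j), ⟨k, fun _ => rfl⟩, ?_⟩
      rw [← ones_eq x k (fun j : Fin n => x (k + j)) (fun _ => rfl)] at hk
      exact_mod_cast hk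
  unfold Slack
  refine exists_congr fun a => forall_congr' fun n => forall_congr' fun _ => ?_
  exact and_congr (key n (fun r => r ≤ n * a - η)) (key n (fun r => n * a + η ≤ r))

/-- the word with height function `H` -/
def wordOf (H : ℕ → ℤ) (m : ℕ) : Fin 2 := if H (m + 1) - H m = 1 then 1 else 0

lemma pre_wordOf (H : ℕ → ℤ) (h : ∀ m, 0 ≤ H (m + 1) - H m ∧ H (m + 1) - H m ≤ 1) (n : ℕ) :
    pre (wordOf H) n = H n - H 0 := by
  induction n with
  | zero => simp [pre]
  | succ n ih =>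
    have := h n
    have e : val (wordOf H n) = H (n + 1) - H n := by
      unfold val wordOf
      by_cases h1 : H (n + 1) - H n = 1
      · simp [h1]
      · simp only [h1, if_false]
        have : H (n + 1) - H n = 0 := by omega
        simp [this]
    rw [pre_succ, ih, e]; ring

lemma wt_wordOf (H : ℕ → ℤ) (h : ∀ m, 0 ≤ H (m + 1) - H m ∧ H (m + 1) - H m ≤ 1) (i n : ℕ) :
    wt (wordOf H) i n = H (i + n) - H i := by
  rw [wt, pre_wordOf H h, pre_wordOf H h]; ring


/-! ### The examples -/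

section Examples

variable {β : ℝ}

/-- height function of the example -/
noncomputable def Hx (β : ℝ) (m : ℕ) : ℤ := ⌊(m : ℝ) * β⌋ + ⌊((m + 1 : ℕ) : ℝ) * β⌋

/-- height function of the underlying mechanical word -/
noncomputable def Hs (β : ℝ) (m : ℕ) : ℤ := ⌊(m : ℝ) * β⌋

lemma floor_diff (r s : ℝ) :
    s - 1 < ((⌊r + s⌋ - ⌊r⌋ : ℤ) : ℝ) ∧ ((⌊r + s⌋ - ⌊r⌋ : ℤ) : ℝ) < s + 1 := by
  have a1 := Int.floor_le (r + s)
  have a2 := Int.lt_floor_add_one (r + s)
  have a3 := Int.floor_le r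
  have a4 := Int.lt_floor_add_one r
  push_cast
  constructor <;> linarith

lemma floor_step (r s : ℝ) (h0 : 0 ≤ s) (h1 : s ≤ 1) :
    0 ≤ ⌊r + s⌋ - ⌊r⌋ ∧ ⌊r + s⌋ - ⌊r⌋ ≤ 1 := by
  obtain ⟨a, b⟩ := floor_diff r s
  have c : ((-1 : ℤ) : ℝ) < ((⌊r + s⌋ - ⌊r⌋ : ℤ) : ℝ) := by
    rw [Int.cast_neg, Int.cast_one]; linarith
  have d : ((⌊r + s⌋ - ⌊r⌋ : ℤ) : ℝ) < ((2 : ℤ) : ℝ) := by
    rw [Int.cast_ofNat]; linarith
  have := Int.cast_lt.1 c
  have := Int.cast_lt.1 d
  omega

lemma Hs_step (h0 : 0 < β) (h1 : β < 1 / 2) (m : ℕ) :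
    0 ≤ Hs β (m + 1) - Hs β m ∧ Hs β (m + 1) - Hs β m ≤ 1 := by
  have e : ((m + 1 : ℕ) : ℝ) * β = m * β + β := by push_cast; ring
  unfold Hs
  rw [e]
  exact floor_step _ _ h0.le (by linarith)

lemma Hx_step (h0 : 0 < β) (h1 : β < 1 / 2) (m : ℕ) :
    0 ≤ Hx β (m + 1) - Hx β m ∧ Hx β (m + 1) - Hx β m ≤ 1 := by
  have e : ((m + 1 + 1 : ℕ) : ℝ) * β = m * β + 2 * β := by push_cast; ring
  have := floor_step ((m : ℝ) * β) (2 * β) (by linarith) (by linarith)
  unfold Hx
  rw [e]
  omega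

lemma wt_Hs (h0 : 0 < β) (h1 : β < 1 / 2) (i n : ℕ) :
    wt (wordOf (Hs β)) i n = ⌊(i : ℝ) * β + n * β⌋ - ⌊(i : ℝ) * β⌋ := by
  have e : ((i + n : ℕ) : ℝ) * β = i * β + n * β := by push_cast; ring
  rw [wt_wordOf _ (Hs_step h0 h1), Hs, Hs, e]

lemma wt_Hx (h0 : 0 < β) (h1 : β < 1 / 2) (i n : ℕ) :
    wt (wordOf (Hx β)) i n = wt (wordOf (Hs β)) i n + wt (wordOf (Hs β)) (i + 1) n := by
  have e : i + 1 + n = i + n + 1 := by ring
  rw [wt_wordOf _ (Hs_step h0 h1), wt_wordOf _ (Hs_step h0 h1), wt_wordOf _ (Hx_step h0 h1), e]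
  unfold Hx Hs
  ring

lemma wt_one (y : ℕ → Fin 2) (i : ℕ) : wt y i 1 = val (y i) := by
  simp [wt, pre_succ]

lemma wt_Hs_near (h0 : 0 < β) (h1 : β < 1 / 2) (i n : ℕ) :
    n * β - 1 < (wt (wordOf (Hs β)) i n : ℝ) ∧ (wt (wordOf (Hs β)) i n : ℝ) < n * β + 1 := by
  rw [wt_Hs h0 h1]
  exact floor_diff _ _

lemma wt_Hx_near (h0 : 0 < β) (h1 : β < 1 / 2) (i n : ℕ) :
    n * (2 * β) - 2 < (wt (wordOf (Hx β)) i n : ℝ) ∧
      (wt (wordOf (Hx β)) i n : ℝ) < n * (2 * β) + 2 := by
  rw [wt_Hx h0 h1]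
  have a := wt_Hs_near h0 h1 i n
  have b := wt_Hs_near h0 h1 (i + 1) n
  push_cast
  constructor <;> linarith [a.1, a.2, b.1, b.2]

lemma eq_zero_of_bounded {r C : ℝ} (h : ∀ t : ℕ, (t : ℝ) * r ≤ C) : r ≤ 0 := by
  by_contra hr
  rw [not_le] at hr
  obtain ⟨t, ht⟩ := exists_nat_gt (C / r)
  rw [div_lt_iff₀ hr] at ht
  linarith [h t]

lemma aperiodic_of_near {y : ℕ → Fin 2} {γ : ℝ} (hγ : Irrational γ)
    (h : ∀ i n : ℕ, n * γ - 2 < (wt y i n : ℝ) ∧ (wt y i n : ℝ) < n * γ + 2) : Aperiodic y := by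
  rintro ⟨p, N, hp, hper⟩
  have h1 : ∀ n, N ≤ n → wt y n p = wt y N p := by
    intro n hn
    induction n, hn using Nat.le_induction with
    | base => rfl
    | succ n hn ih =>
      have e := wt_shift y n p
      rw [hper n hn] at e
      omega
  have h2 : ∀ t : ℕ, wt y N (t * p) = t * wt y N p := by
    intro t
    induction t with
    | zero => simp [wt]
    | succ t ih =>
      rw [add_mul, one_mul, wt_add, ih, h1 (N + t * p) (by omega)]; push_cast; ring
  have h3 : (p : ℝ) * γ - wt y N p ≤ 0 := eq_zero_of_bounded (C := 2) fun t => by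
    have := (h N (t * p)).1
    rw [h2] at this
    push_cast at this
    linarith
  have h4 : (wt y N p : ℝ) - p * γ ≤ 0 := eq_zero_of_bounded (C := 2) fun t => by
    have := (h N (t * p)).2
    rw [h2] at this
    push_cast at this
    linarith
  have h5 : Irrational ((p : ℝ) * γ) := hγ.natCast_mul (by omega)
  exact h5 ⟨(wt y N p : ℤ), by push_cast; linarith⟩

lemma frequency_of_near {y : ℕ → Fin 2} {γ : ℝ}
    (h : ∀ i n : ℕ, n * γ - 2 < (wt y i n : ℝ) ∧ (wt y i n : ℝ) < n * γ + 2) :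
    HasFrequency y γ := by
  have h1 : Tendsto (fun n : ℕ => (2 : ℝ) / (n : ℝ)) atTop (𝓝 0) :=
    tendsto_const_div_atTop_nhds_zero_nat _
  have lo : Tendsto (fun n : ℕ => γ - (2 : ℝ) / (n : ℝ)) atTop (𝓝 γ) := by
    simpa using h1.const_sub γ
  have hi : Tendsto (fun n : ℕ => γ + (2 : ℝ) / (n : ℝ)) atTop (𝓝 γ) := by
    simpa using h1.const_add γ
  have e : ∀ n : ℕ, ((ones (fun j : Fin n => y j) : ℕ) : ℝ) = wt y 0 n := by
    intro n
    rw [← ones_eq y 0 (fun j : Fin n => y j) (fun j => by simp)]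
    exact (Int.cast_natCast _).symm
  refine tendsto_of_tendsto_of_tendsto_of_le_of_le' lo hi ?_ ?_
  · filter_upwards [eventually_gt_atTop 0] with n hn
    have n0 : (0 : ℝ) < n := by exact_mod_cast hn
    rw [e, le_div_iff₀ n0, sub_mul, div_mul_cancel₀ _ n0.ne']
    linarith [(h 0 n).1]
  · filter_upwards [eventually_gt_atTop 0] with n hn
    have n0 : (0 : ℝ) < n := by exact_mod_cast hn
    rw [e, div_le_iff₀ n0, add_mul, div_mul_cancel₀ _ n0.ne']
    linarith [(h 0 n).2]

lemma syndetic (hβ : Irrational β) (θ ε : ℝ) (hε : 0 < ε) :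
    ∃ B : ℕ, ∀ i : ℕ, ∃ j : ℕ, ∃ z : ℤ, i ≤ j ∧ j ≤ i + B ∧
      0 ≤ j * β - z - θ ∧ j * β - z - θ < ε := by
  obtain ⟨n, hn⟩ := exists_nat_gt (1 / ε)
  have hn0 : 0 < n := by
    have : (0 : ℝ) < n := lt_trans (by positivity) hn
    exact_mod_cast this
  obtain ⟨q, hq0, -, hq⟩ := Real.exists_nat_abs_mul_sub_round_le β hn0
  set p := round ((q : ℝ) * β)
  set δ := (q : ℝ) * β - p with hδ
  have hδε : |δ| < ε := by
    refine lt_of_le_of_lt hq ?_
    rw [div_lt_iff₀ hε] at hn
    rw [div_lt_iff₀ (by positivity)]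
    nlinarith
  have hδ0 : δ ≠ 0 := by
    intro h0
    have h5 : Irrational ((q : ℝ) * β) := hβ.natCast_mul (by omega)
    apply h5
    refine ⟨(p : ℤ), ?_⟩
    push_cast; linarith
  rcases lt_or_gt_of_ne hδ0 with hneg | hpos
  · set η := -δ with hη
    have hη0 : 0 < η := by linarith
    rw [abs_of_neg hneg] at hδε
    refine ⟨⌊1 / η⌋₊ * q, fun i => ?_⟩
    set r := (i : ℝ) * β - θ with hr
    have f1 := Int.floor_le r
    have f2 := Int.lt_floor_add_one r
    set t := ⌊(r - ⌊r⌋) / η⌋₊ with ht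
    have t1 : (t : ℝ) ≤ (r - ⌊r⌋) / η := Nat.floor_le (div_nonneg (by linarith) hη0.le)
    have t2 : (r - ⌊r⌋) / η < t + 1 := Nat.lt_floor_add_one _
    have t3 : t ≤ ⌊1 / η⌋₊ := Nat.floor_le_floor (by gcongr; linarith)
    rw [le_div_iff₀ hη0] at t1
    rw [div_lt_iff₀ hη0] at t2
    refine ⟨i + t * q, ⌊r⌋ + t * p, by omega, by nlinarith, ?_, ?_⟩
    · push_cast; nlinarith
    · push_cast; nlinarith
  · rw [abs_of_pos hpos] at hδε
    refine ⟨⌈1 / δ⌉₊ * q, fun i => ?_⟩
    set r := (i : ℝ) * β - θ with hr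
    have f1 := Int.le_ceil r
    have f2 := Int.ceil_lt_add_one r
    set t := ⌈(⌈r⌉ - r) / δ⌉₊ with ht
    have t1 : (⌈r⌉ - r) / δ ≤ (t : ℝ) := Nat.le_ceil _
    have t2 : (t : ℝ) < (⌈r⌉ - r) / δ + 1 := Nat.ceil_lt_add_one (div_nonneg (by linarith) hpos.le)
    have t3 : t ≤ ⌈1 / δ⌉₊ := Nat.ceil_le_ceil (by gcongr; linarith)
    rw [div_le_iff₀ hpos] at t1
    have t4 : (t : ℝ) * δ < (⌈r⌉ - r) + δ := by
      have := mul_lt_mul_of_pos_right t2 hpos
      rwa [add_mul, div_mul_cancel₀ _ hpos.ne', one_mul] at this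
    refine ⟨i + t * q, ⌈r⌉ + t * p, by omega, by nlinarith, ?_, ?_⟩
    · push_cast; nlinarith
    · push_cast; nlinarith

lemma floor_stable (a : ℕ → ℝ) (m : ℕ) :
    ∃ ε : ℝ, 0 < ε ∧ ∀ e : ℝ, 0 ≤ e → e < ε → ∀ k ≤ m, ⌊a k + e⌋ = ⌊a k⌋ := by
  have key : ∀ k, ∃ ε : ℝ, 0 < ε ∧ ∀ e : ℝ, 0 ≤ e → e < ε → ⌊a k + e⌋ = ⌊a k⌋ := by
    intro k
    have f1 := Int.floor_le (a k)
    have f2 := Int.lt_floor_add_one (a k)
    refine ⟨⌊a k⌋ + 1 - a k, by linarith, fun e h0 h1 => ?_⟩
    rw [Int.floor_eq_iff]; constructor <;> linarith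
  induction m with
  | zero =>
    obtain ⟨ε, h0, h⟩ := key 0
    refine ⟨ε, h0, fun e a b k hk => ?_⟩
    obtain rfl : k = 0 := by omega
    exact h e a b
  | succ m ih =>
    obtain ⟨ε, h0, h⟩ := key (m + 1)
    obtain ⟨ε', h0', h'⟩ := ih
    refine ⟨min ε ε', lt_min h0 h0', fun e a b k hk => ?_⟩
    rcases Nat.lt_or_ge k (m + 1) with hlt | hge
    · exact h' e a (lt_of_lt_of_le b (min_le_right _ _)) k (by omega)
    · obtain rfl : k = m + 1 := by omega
      exact h e a (lt_of_lt_of_le b (min_le_left _ _))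

lemma recurrent_Hx (hβ : Irrational β) : UniformlyRecurrent (wordOf (Hx β)) := by
  rintro n w ⟨i, hi⟩
  obtain ⟨ε, hε, hst⟩ := floor_stable (fun k => (k : ℝ) * β) (i + n + 2)
  obtain ⟨B, hB⟩ := syndetic hβ 0 ε hε
  refine ⟨B + i, fun l => ?_⟩
  obtain ⟨j, z, h1, h2, h3, h4⟩ := hB l
  have hQ : ∀ u ≤ i + n + 2, Hs β (j + u) = Hs β u + z := by
    intro u hu
    have := hst (j * β - z - 0) h3 h4 u hu
    unfold Hs
    rw [← this, ← Int.floor_add_intCast]
    congr 1
    push_cast; ring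
  have hX : ∀ m, Hx β m = Hs β m + Hs β (m + 1) := fun m => rfl
  refine ⟨j + i, by omega, by omega, fun k => ?_⟩
  rw [hi k]
  have hk := k.2
  have a1 := hQ (i + k) (by omega)
  have a2 := hQ (i + k + 1 + 1) (by omega)
  have e1 : j + i + k = j + (i + k) := by ring
  have e2 : j + (i + k) + 1 + 1 = j + (i + k + 1 + 1) := by ring
  have e : Hx β (j + i + k + 1) - Hx β (j + i + k) = Hx β (i + k + 1) - Hx β (i + k) := by
    rw [hX, hX, hX, hX, e1, e2, a1, a2]; ring
  unfold wordOf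
  rw [e]

/-- Morse and Hedlund: an aperiodic word has at least `n + 1` factors of length `n`. -/
lemma morse_hedlund {y : ℕ → Fin 2} (hy : Aperiodic y) (n : ℕ) :
    n + 1 ≤ (factors y n).ncard := by
  induction n with
  | zero =>
    refine (Set.ncard_pos (Set.toFinite _)).2 ⟨fun j => y j, 0, fun j => by simp⟩
  | succ n ih =>
    by_contra hlt
    have hle : (factors y (n + 1)).ncard ≤ (factors y n).ncard := by omega
    have himg : (fun (w : Fin (n + 1) → Fin 2) (j : Fin n) => w j.castSucc) '' factors y (n + 1)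
        = factors y n := by
      ext u
      constructor
      · rintro ⟨w, ⟨i, hi⟩, rfl⟩
        exact ⟨i, fun j => by simp [hi]⟩
      · rintro ⟨i, hi⟩
        exact ⟨fun j => y (i + j), ⟨i, fun _ => rfl⟩, funext fun j => by simp [hi]⟩
    have hinj := Set.injOn_of_ncard_image_eq
      (f := fun (w : Fin (n + 1) → Fin 2) (j : Fin n) => w j.castSucc) (s := factors y (n + 1))
      (le_antisymm (Set.ncard_image_le (Set.toFinite _)) (by rw [himg]; exact hle))
      (Set.toFinite _)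
    have hnext : ∀ i j : ℕ, (∀ l < n, y (i + l) = y (j + l)) → y (i + n) = y (j + n) := by
      intro i j h
      have := hinj (x₁ := fun l : Fin (n + 1) => y (i + l)) ⟨i, fun _ => rfl⟩
        (x₂ := fun l : Fin (n + 1) => y (j + l)) ⟨j, fun _ => rfl⟩
        (funext fun l => h l l.2)
      exact congrFun this (Fin.last n)
    have hall : ∀ i j : ℕ, (∀ l < n, y (i + l) = y (j + l)) → ∀ l, y (i + l) = y (j + l) := by
      intro i j h l
      induction l using Nat.strong_induction_on with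
      | _ l ihl =>
        rcases Nat.lt_or_ge l n with hl | hl
        · exact h l hl
        · obtain ⟨d, rfl⟩ := Nat.exists_eq_add_of_le hl
          have := hnext (i + d) (j + d) (fun m hm => by
            have := ihl (d + m) (by omega)
            rwa [← add_assoc, ← add_assoc] at this)
          have e1 : i + (n + d) = i + d + n := by ring
          have e2 : j + (n + d) = j + d + n := by ring
          rw [e1, e2, this]
    have fin : ∀ i j : ℕ, i < j → (∀ l < n, y (i + l) = y (j + l)) → False := by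
      intro i j hij h
      refine hy ⟨j - i, i, by omega, fun m hm => ?_⟩
      have := hall i j h (m - i)
      have e1 : i + (m - i) = m := by omega
      have e2 : j + (m - i) = m + (j - i) := by omega
      rw [e1, e2] at this
      exact this.symm
    obtain ⟨i, j, hij, h⟩ := Finite.exists_ne_map_eq_of_infinite
      (fun i : ℕ => fun l : Fin n => y (i + l))
    have h' : ∀ l < n, y (i + l) = y (j + l) := fun l hl => congrFun h ⟨l, hl⟩
    rcases lt_or_gt_of_ne hij with hlt | hlt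
    · exact fin i j hlt h'
    · exact fin j i hlt fun l hl => (h' l hl).symm

lemma val_Hx (h0 : 0 < β) (h1 : β < 1 / 2) (m : ℕ) :
    val (wordOf (Hx β) m) = val (wordOf (Hs β) m) + val (wordOf (Hs β) (m + 1)) := by
  rw [← wt_one, ← wt_one, ← wt_one, wt_Hx h0 h1]

lemma not_sturmian_Hx (hβ : Irrational β) (h0 : 0 < β) (h1 : β < 1 / 2) :
    ¬ Sturmian (wordOf (Hx β)) := by
  rintro ⟨-, hst⟩
  obtain ⟨n, hn⟩ := exists_nat_gt (2 / (1 - 2 * β))
  rw [div_lt_iff₀ (by linarith)] at hn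
  have hs : Aperiodic (wordOf (Hs β)) := aperiodic_of_near hβ fun i m => by
    have := wt_Hs_near h0 h1 i m
    constructor <;> linarith [this.1, this.2]
  have hmh := morse_hedlund hs (n + 1)
  set s := wordOf (Hs β) with hsdef
  set x := wordOf (Hx β) with hxdef
  have hv : ∀ m, val (x m) = val (s m) + val (s (m + 1)) := val_Hx h0 h1
  have hdet : ∀ i k : ℕ, (∀ l < n, x (i + l) = x (k + l)) → ∀ l ≤ n, s (i + l) = s (k + l) := by
    intro i k h
    have hstep : ∀ l < n, val (s (i + l)) + val (s (i + (l + 1)))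
        = val (s (k + l)) + val (s (k + (l + 1))) := by
      intro l hl
      rw [← add_assoc, ← add_assoc, ← hv, ← hv, h l hl]
    by_cases h00 : val (s i) = val (s k)
    · intro l hl
      apply val_injective
      induction l with
      | zero => exact h00
      | succ l ih =>
        have := ih (by omega)
        have := hstep l (by omega)
        omega
    · exfalso
      have hne : ∀ l ≤ n, val (s (i + l)) + val (s (k + l)) = 1 := by
        intro l hl
        induction l with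
        | zero =>
          have := val_cases (s i)
          have := val_cases (s k)
          simp only [add_zero]
          omega
        | succ l ih =>
          have := ih (by omega)
          have := hstep l (by omega)
          have := val_cases (s (i + l))
          have := val_cases (s (k + l))
          have := val_cases (s (i + (l + 1)))
          have := val_cases (s (k + (l + 1)))
          omega
      have hsum : wt s i n + wt s k n = n := by
        rw [wt_eq_sum, wt_eq_sum, ← Finset.sum_add_distrib,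
          Finset.sum_congr rfl (fun l hl => hne l (Finset.mem_range.1 hl).le)]
        simp
      have a := (wt_Hs_near h0 h1 i n).2
      have b := (wt_Hs_near h0 h1 k n).2
      have c : ((wt s i n : ℤ) : ℝ) + (wt s k n : ℤ) = n := by exact_mod_cast hsum
      rw [← hsdef] at a b
      linarith
  have hchoice : ∀ u ∈ factors s (n + 1), ∃ i : ℕ, ∀ j : Fin (n + 1), u j = s (i + j) :=
    fun u hu => hu
  choose! pos hpos using hchoice
  have hle : (factors s (n + 1)).ncard ≤ (factors x n).ncard := by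
    refine Set.ncard_le_ncard_of_injOn (fun u => fun j : Fin n => x (pos u + j))
      (fun u _ => ⟨pos u, fun _ => rfl⟩) ?_ (Set.toFinite _)
    intro u hu v hv' h
    funext j
    rw [hpos u hu j, hpos v hv' j]
    exact hdet _ _ (fun l hl => congrFun h ⟨l, hl⟩) j (Nat.lt_succ_iff.1 j.2)
  have := hst n
  omega

/-- the largest weight comes arbitrarily close to the line of the frequency -/
lemma tight_Hx (hβ : Irrational β) (h0 : 0 < β) (h1 : β < 1 / 2) {η : ℝ} (hη : 0 < η) :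
    ∃ n : ℕ, 1 ≤ n ∧ ∀ k, (wt (wordOf (Hx β)) k n : ℝ) < n * (2 * β) + η := by
  obtain ⟨B, hB⟩ := syndetic hβ (-(η / 4)) (η / 4) (by linarith)
  obtain ⟨n, z, hn, -, h3, h4⟩ := hB 1
  have hs : ∀ k, (wt (wordOf (Hs β)) k n : ℝ) ≤ z := by
    intro k
    have a := (wt_Hs_near h0 h1 k n).2
    have b : (wt (wordOf (Hs β)) k n : ℝ) < ((z + 1 : ℤ) : ℝ) := by push_cast; linarith
    have := Int.cast_lt.1 b
    exact_mod_cast Int.lt_add_one_iff.1 this
  refine ⟨n, hn, fun k => ?_⟩
  rw [wt_Hx h0 h1]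
  push_cast
  linarith [hs k, hs (k + 1)]

lemma not_slack_Hx (hβ : Irrational β) (h0 : 0 < β) (h1 : β < 1 / 2) {η : ℝ} (hη : 0 < η) :
    ¬ Slack (wordOf (Hx β)) η := by
  rw [slack_iff]
  rintro ⟨a, ha⟩
  have h2 : 2 * β - a ≤ 0 := eq_zero_of_bounded (C := 2) fun t => by
    rcases Nat.eq_zero_or_pos t with rfl | ht
    · simp
    · obtain ⟨⟨k, hk⟩, -⟩ := ha t ht
      have := (wt_Hx_near h0 h1 k t).1
      linarith
  obtain ⟨n, hn, h⟩ := tight_Hx hβ h0 h1 hη
  obtain ⟨-, k, hk⟩ := ha n hn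
  have := h k
  have n0 : (0 : ℝ) ≤ n := Nat.cast_nonneg n
  nlinarith

end Examples

/-- For every irrational frequency there is a uniformly recurrent, aperiodic, non-Sturmian word
of that frequency without slack. -/
theorem examples (α : ℝ) (hα : Irrational α) (h0 : 0 < α) (h1 : α < 1) :
    ∃ x : ℕ → Fin 2, UniformlyRecurrent x ∧ Aperiodic x ∧ ¬ Sturmian x ∧ HasFrequency x α ∧
      ∀ η : ℝ, 0 < η → ¬ Slack x η := by
  have hβ : Irrational (α / 2) := by
    simpa using hα.div_natCast (m := 2) (by norm_num)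
  have b0 : 0 < α / 2 := by linarith
  have b1 : α / 2 < 1 / 2 := by linarith
  have hn : ∀ i n : ℕ, n * α - 2 < (wt (wordOf (Hx (α / 2))) i n : ℝ) ∧
      (wt (wordOf (Hx (α / 2))) i n : ℝ) < n * α + 2 := by
    intro i n
    have := wt_Hx_near b0 b1 i n
    rwa [show 2 * (α / 2) = α by ring] at this
  exact ⟨wordOf (Hx (α / 2)), recurrent_Hx hβ, aperiodic_of_near hα hn,
    not_sturmian_Hx hβ b0 b1, frequency_of_near hn, fun η hη => not_slack_Hx hβ b0 b1 hη⟩

/-- For every irrational frequency there is a uniformly recurrent, aperiodic, non-Sturmian word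
of that frequency whose abelian closure has entropy zero. -/
theorem examples_zero (α : ℝ) (hα : Irrational α) (h0 : 0 < α) (h1 : α < 1) :
    ∃ x : ℕ → Fin 2, UniformlyRecurrent x ∧ Aperiodic x ∧ ¬ Sturmian x ∧ HasFrequency x α ∧
      Tendsto (fun n : ℕ => Real.log ((blocks (abelianClosure x) n).ncard : ℝ) / n) atTop
        (𝓝 0) := by
  obtain ⟨x, a, b, c, d, e⟩ := examples α hα h0 h1
  refine ⟨x, a, b, c, d, ?_⟩
  obtain ⟨h, hh, hiff⟩ := Pool.Agent.Lib.MP_1706f7_co.Crit.criterion x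
  have hn : 0 ≤ h := ge_of_tendsto' hh fun n =>
    div_nonneg (Real.log_natCast_nonneg _) (Nat.cast_nonneg _)
  have hz : h = 0 := by
    refine le_antisymm (not_lt.1 fun hp => ?_) hn
    obtain ⟨s, η, hη, hs⟩ := hiff.1 hp
    refine e η hη ⟨s, fun n hn1 => ⟨?_, (hs n hn1).2⟩⟩
    obtain ⟨u, hu, hu'⟩ := (hs n hn1).1
    exact ⟨u, hu, by linarith⟩
  rwa [hz] at hh

end Pool.Agent.Lib.MP_1706f7_co.Ex
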